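import Pool.Agent.SBC.Targets

set_option autoImplicit false

/-!
# Good triples
-/

namespace Pool.Agent.SBC

namespace GEO_

theorem tri_mem {x y z p : ℝ × ℝ} {a b c : ℝ} (ha : 0 ≤ a) (hb : 0 ≤ b) (hc : 0 ≤ c)
    (h : a + b + c = 1) (hp : a • x + b • y + c • z = p) : p ∈ convexHull ℝ {x, y, z} := by
  have hconv := convex_convexHull ℝ ({x, y, z} : Set (ℝ × ℝ))
  have hx : x ∈ convexHull ℝ ({x, y, z} : Set (ℝ × ℝ)) := subset_convexHull ℝ _ (by simp)
  have hy : y ∈ convexHull ℝ ({x, y, z} : Set (ℝ × ℝ)) := subset_convexHull ℝ _ (by simp)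
  have hz : z ∈ convexHull ℝ ({x, y, z} : Set (ℝ × ℝ)) := subset_convexHull ℝ _ (by simp)
  have := hconv.sum_mem (t := Finset.univ) (w := ![a, b, c]) (z := ![x, y, z])
    (by intro i _; fin_cases i <;> simpa) (by simp [Fin.sum_univ_three, h])
    (by intro i _; fin_cases i <;> simpa)
  rw [← hp]
  simpa [Fin.sum_univ_three] using this

theorem tri_coord {x y z p : ℝ × ℝ} (hp : p ∈ convexHull ℝ {x, y, z}) :
    ∃ a b c : ℝ, 0 ≤ a ∧ 0 ≤ b ∧ 0 ≤ c ∧ a + b + c = 1 ∧ a • x + b • y + c • z = p := by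
  rw [convexHull_insert (by simp), convexHull_pair] at hp
  obtain ⟨x', hx', w, hw, hp⟩ := mem_convexJoin.1 hp
  rw [Set.mem_singleton_iff] at hx'
  subst hx'
  obtain ⟨s, t, hs, ht, hst, rfl⟩ := hw
  obtain ⟨u, v, hu, hv, huv, rfl⟩ := hp
  refine ⟨u, v * s, v * t, hu, mul_nonneg hv hs, mul_nonneg hv ht, ?_, ?_⟩
  · rw [add_assoc, ← mul_add, hst, mul_one, huv]
  · rw [smul_add, smul_smul, smul_smul, add_assoc]

/-- the signed area -/
def ar (a b c : ℝ × ℝ) : ℝ := (b.1 - a.1) * (c.2 - a.2) - (b.2 - a.2) * (c.1 - a.1)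

theorem ar_ne {a b c : ℝ × ℝ} (hab : a ≠ b) (h : ¬ Collinear ℝ {a, b, c}) : ar a b c ≠ 0 := by
  intro h0
  apply h
  rw [collinear_iff_of_mem (p₀ := a) (by simp)]
  refine ⟨b - a, ?_⟩
  intro p hp
  simp only [Set.mem_insert_iff, Set.mem_singleton_iff] at hp
  rcases hp with rfl | rfl | rfl
  · exact ⟨0, by simp⟩
  · exact ⟨1, by simp⟩
  · unfold ar at h0
    by_cases h1 : b.1 - a.1 = 0
    · have h2 : b.2 - a.2 ≠ 0 := by
        intro h2
        apply hab
        ext
        · linarith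
        · linarith
      refine ⟨(p.2 - a.2) / (b.2 - a.2), ?_⟩
      ext
      · simp only [vadd_eq_add, Prod.fst_add, Prod.smul_fst, Prod.fst_sub, smul_eq_mul]
        rw [h1] at h0 ⊢
        have : p.1 - a.1 = 0 := by
          have h3 : (b.2 - a.2) * (p.1 - a.1) = 0 := by linarith
          exact (mul_eq_zero.1 h3).resolve_left h2
        linarith
      · simp only [vadd_eq_add, Prod.snd_add, Prod.smul_snd, Prod.snd_sub, smul_eq_mul]
        field_simp
        ring
    · refine ⟨(p.1 - a.1) / (b.1 - a.1), ?_⟩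
      ext
      · simp only [vadd_eq_add, Prod.fst_add, Prod.smul_fst, Prod.fst_sub, smul_eq_mul]
        field_simp
        ring
      · simp only [vadd_eq_add, Prod.snd_add, Prod.smul_snd, Prod.snd_sub, smul_eq_mul]
        field_simp
        linarith

/-- barycentric coordinates -/
theorem bary {a b c : ℝ × ℝ} (h : ar a b c ≠ 0) (q : ℝ × ℝ) :
    ∃ l m n : ℝ, l + m + n = 1 ∧ l • a + m • b + n • c = q := by
  refine ⟨ar q b c / ar a b c, ar a q c / ar a b c, ar a b q / ar a b c, ?_, ?_⟩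
  · rw [← add_div, ← add_div, div_eq_one_iff_eq h]
    unfold ar
    ring
  · ext
    · simp only [Prod.fst_add, Prod.smul_fst, smul_eq_mul]
      field_simp
      unfold ar
      ring
    · simp only [Prod.snd_add, Prod.smul_snd, smul_eq_mul]
      field_simp
      unfold ar
      ring

/-- numbers: one step of the exchange -/
theorem step {a1 a2 a3 l1 l2 l3 : ℝ} (h1 : 0 ≤ a1) (h2 : 0 ≤ a2) (h3 : 0 ≤ a3)
    (hl : l1 + l2 + l3 = 1) :
    ∃ t : ℝ, 0 ≤ t ∧ 0 ≤ a1 - t * l1 ∧ 0 ≤ a2 - t * l2 ∧ 0 ≤ a3 - t * l3 ∧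
      (a1 - t * l1 = 0 ∨ a2 - t * l2 = 0 ∨ a3 - t * l3 = 0) := by
  set a : Fin 3 → ℝ := ![a1, a2, a3] with ha
  set l : Fin 3 → ℝ := ![l1, l2, l3] with hl'
  have hne : (Finset.univ.filter fun i => 0 < l i).Nonempty := by
    by_contra hcon
    rw [Finset.not_nonempty_iff_eq_empty, Finset.filter_eq_empty_iff] at hcon
    have g1 := hcon (Finset.mem_univ 0)
    have g2 := hcon (Finset.mem_univ 1)
    have g3 := hcon (Finset.mem_univ 2)
    simp [hl'] at g1 g2 g3
    linarith
  obtain ⟨i, hi, hmin⟩ := Finset.exists_min_image _ (fun i => a i / l i) hne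
  have hi' : 0 < l i := (Finset.mem_filter.1 hi).2
  have ha0 : ∀ j, 0 ≤ a j := by
    intro j
    fin_cases j <;> simpa [ha]
  have key : ∀ j, 0 ≤ a j - a i / l i * l j := by
    intro j
    rcases le_or_gt (l j) 0 with h | h
    · have : a i / l i * l j ≤ 0 := mul_nonpos_of_nonneg_of_nonpos (div_nonneg (ha0 i) hi'.le) h
      linarith [ha0 j]
    · have := hmin j (Finset.mem_filter.2 ⟨Finset.mem_univ _, h⟩)
      rw [le_div_iff₀ h] at this
      linarith
  have hz : a i - a i / l i * l i = 0 := by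
    field_simp
    ring
  refine ⟨a i / l i, div_nonneg (ha0 i) hi'.le, key 0, key 1, key 2, ?_⟩
  fin_cases i
  · exact Or.inl hz
  · exact Or.inr (Or.inl hz)
  · exact Or.inr (Or.inr hz)

theorem exchange {a b c p : ℝ × ℝ} (h : ar a b c ≠ 0) (hp : p ∈ convexHull ℝ {a, b, c})
    (q : ℝ × ℝ) : p ∈ convexHull ℝ {b, c, q} ∨ p ∈ convexHull ℝ {a, c, q} ∨
      p ∈ convexHull ℝ {a, b, q} := by
  obtain ⟨a1, a2, a3, h1, h2, h3, hs, he⟩ := tri_coord hp
  obtain ⟨l1, l2, l3, hl, hq⟩ := bary h q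
  obtain ⟨t, t0, t1, t2, t3, t4⟩ := step h1 h2 h3 hl
  have hsum : (a1 - t * l1) + (a2 - t * l2) + (a3 - t * l3) + t = 1 := by
    have : t * (l1 + l2 + l3) = t := by rw [hl, mul_one]
    linarith
  have hcomb : (a1 - t * l1) • a + (a2 - t * l2) • b + (a3 - t * l3) • c + t • q = p := by
    rw [← he, ← hq]
    module
  rcases t4 with t4 | t4 | t4
  · left
    refine tri_mem t2 t3 t0 (by linarith) ?_
    rw [t4, zero_smul, zero_add] at hcomb
    exact hcomb
  · right; left
    refine tri_mem t1 t3 t0 (by linarith) ?_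
    rw [t4, zero_smul, add_zero] at hcomb
    exact hcomb
  · right; right
    refine tri_mem t1 t2 t0 (by linarith) ?_
    rw [t4, zero_smul, add_zero] at hcomb
    exact hcomb

/-- a point which is not in the hull of the others is extreme -/
theorem extreme_of_notMem {C : Finset (ℝ × ℝ)} {p : ℝ × ℝ} (hp : p ∈ C)
    (h : p ∉ convexHull ℝ ((C : Set (ℝ × ℝ)) \ {p})) :
    p ∈ (convexHull ℝ (C : Set (ℝ × ℝ))).extremePoints ℝ := by
  have hfin : ((C : Set (ℝ × ℝ)) \ {p}).Finite := C.finite_toSet.subset Set.sdiff_subset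
  have hins : (C : Set (ℝ × ℝ)) = insert p ((C : Set (ℝ × ℝ)) \ {p}) := by
    rw [Set.insert_sdiff_singleton, Set.insert_eq_of_mem (by exact_mod_cast hp)]
  rcases Set.eq_empty_or_nonempty ((C : Set (ℝ × ℝ)) \ {p}) with he | hne
  · rw [hins, he]
    simp
  · obtain ⟨f, u, h1, h2⟩ := geometric_hahn_banach_point_closed (convex_convexHull ℝ _)
      (hfin.isClosed_convexHull ℝ) h
    have key : ∀ y ∈ convexHull ℝ (C : Set (ℝ × ℝ)), f p ≤ f y ∧ (f y = f p → y = p) := by
      intro y hy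
      rw [hins, convexHull_insert hne] at hy
      obtain ⟨x', hx', w, hw, hy'⟩ := mem_convexJoin.1 hy
      rw [Set.mem_singleton_iff] at hx'
      rw [hx'] at hy'
      obtain ⟨s, t, hs, ht, hst, rfl⟩ := hy'
      have h3 := h2 w hw
      have h4 : f (s • p + t • w) = f p + t * (f w - f p) := by
        rw [map_add, map_smul, map_smul, smul_eq_mul, smul_eq_mul]
        have : s = 1 - t := by linarith
        rw [this]
        ring
      refine ⟨?_, fun h5 => ?_⟩
      · rw [h4]
        have : 0 ≤ t * (f w - f p) := mul_nonneg ht (by linarith)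
        linarith
      · rw [h4] at h5
        have h6 : t * (f w - f p) = 0 := by linarith
        have h7 : t = 0 := (mul_eq_zero.1 h6).resolve_right (by linarith [h1.trans h3])
        have h8 : s = 1 := by linarith
        rw [h7, h8]
        simp
    rw [mem_extremePoints]
    refine ⟨subset_convexHull ℝ _ (by exact_mod_cast hp), ?_⟩
    intro x hx y hy hxy
    obtain ⟨s, t, hs, ht, hst, hp'⟩ := hxy
    obtain ⟨k1, k2⟩ := key x hx
    obtain ⟨k3, k4⟩ := key y hy
    have h5 : f p = s * f x + t * f y := by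
      rw [← hp', map_add, map_smul, map_smul, smul_eq_mul, smul_eq_mul]
    have h6 : s * (f x - f p) + t * (f y - f p) = 0 := by
      have : s * f p + t * f p = f p := by rw [← add_mul, hst, one_mul]
      linarith
    have h7 : 0 ≤ s * (f x - f p) := mul_nonneg hs.le (by linarith)
    have h8 : 0 ≤ t * (f y - f p) := mul_nonneg ht.le (by linarith)
    have h9 : f x - f p = 0 := (mul_eq_zero.1 (by linarith : s * (f x - f p) = 0)).resolve_left hs.ne'
    have h10 : f y - f p = 0 := (mul_eq_zero.1 (by linarith : t * (f y - f p) = 0)).resolve_left ht.ne'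
    exact ⟨k2 (by linarith), k4 (by linarith)⟩

/-- four points that are not in convex position -/
theorem four {S C : Finset (ℝ × ℝ)} (hS : GenPos S) (hC : C ⊆ S) (h : ¬ ConvexPos C) :
    ∃ p ∈ C, ∃ a ∈ C, ∃ b ∈ C, ∃ c ∈ C, p ≠ a ∧ p ≠ b ∧ p ≠ c ∧ a ≠ b ∧ a ≠ c ∧ b ≠ c ∧
      p ∈ convexHull ℝ {a, b, c} := by
  unfold ConvexPos at h
  push Not at h
  obtain ⟨p, hp, hp'⟩ := h
  have h1 : p ∈ convexHull ℝ ((C : Set (ℝ × ℝ)) \ {p}) := by
    by_contra hcon
    exact hp' (extreme_of_notMem hp hcon)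
  rw [convexHull_eq_union] at h1
  simp only [Set.mem_iUnion, exists_prop] at h1
  obtain ⟨t, ht1, ht2, ht3⟩ := h1
  have hcard : t.card ≤ 3 := by
    have := ht2.card_le_finrank_succ
    have h2 : Module.finrank ℝ (vectorSpan ℝ (Set.range ((↑) : t → ℝ × ℝ))) ≤ 2 := by
      have h3 := Submodule.finrank_le (vectorSpan ℝ (Set.range ((↑) : t → ℝ × ℝ)))
      have h4 : Module.finrank ℝ (ℝ × ℝ) = 2 := by simp
      omega
    rw [Fintype.card_coe] at this
    omega
  have hmem : ∀ x ∈ t, x ∈ C ∧ p ≠ x := by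
    intro x hx
    have := ht1 (by exact_mod_cast hx : x ∈ (t : Set (ℝ × ℝ)))
    exact ⟨by exact_mod_cast this.1, fun h => this.2 h.symm⟩
  have hcases : t.card = 0 ∨ t.card = 1 ∨ t.card = 2 ∨ t.card = 3 := by omega
  rcases hcases with h0 | h0 | h0 | h0
  · rw [Finset.card_eq_zero] at h0
    subst h0
    simp at ht3
  · obtain ⟨a, rfl⟩ := Finset.card_eq_one.1 h0
    simp only [Finset.coe_singleton, convexHull_singleton, Set.mem_singleton_iff] at ht3
    exact absurd ht3 (hmem a (by simp)).2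
  · obtain ⟨a, b, hab, rfl⟩ := Finset.card_eq_two.1 h0
    exfalso
    obtain ⟨ha1, ha2⟩ := hmem a (by simp)
    obtain ⟨hb1, hb2⟩ := hmem b (by simp)
    rw [Finset.coe_pair, convexHull_pair] at ht3
    refine hS p (hC hp) a (hC ha1) b (hC hb1) ha2 hb2 hab ?_
    have hw : Wbtw ℝ a p b := by
      rw [← mem_segment_iff_wbtw]
      exact ht3
    have := hw.collinear
    rwa [Set.insert_comm] at this
  · obtain ⟨a, b, c, hab, hac, hbc, rfl⟩ := Finset.card_eq_three.1 h0
    obtain ⟨ha1, ha2⟩ := hmem a (by simp)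
    obtain ⟨hb1, hb2⟩ := hmem b (by simp)
    obtain ⟨hc1, hc2⟩ := hmem c (by simp)
    refine ⟨p, hp, a, ha1, b, hb1, c, hc1, ha2, hb2, hc2, hab, hac, hbc, ?_⟩
    simpa using ht3

open scoped Classical in
/-- the completing points -/
noncomputable def Q (S : Finset (ℝ × ℝ)) (p x y : ℝ × ℝ) : Finset (ℝ × ℝ) :=
  S.filter fun q => q ≠ p ∧ q ≠ x ∧ q ≠ y ∧ p ∈ convexHull ℝ {x, y, q}

/-- good triples -/
def Good (S e : Finset (ℝ × ℝ)) : Prop :=
  ∃ p ∈ S, ∃ x ∈ S, ∃ y ∈ S, p ≠ x ∧ p ≠ y ∧ x ≠ y ∧ e = {p, x, y} ∧ S.card ≤ 4 * (Q S p x y).card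

theorem good_prop {S e : Finset (ℝ × ℝ)} (h : Good S e) : e ⊆ S ∧ e.card = 3 ∧
    ∃ Q ⊆ S, S.card ≤ 4 * Q.card ∧ ∀ T ⊆ S, ConvexPos T → e ⊆ T → Disjoint T Q := by
  classical
  obtain ⟨p, hp, x, hx, y, hy, h1, h2, h3, rfl, h4⟩ := h
  refine ⟨?_, ?_, Q S p x y, Finset.filter_subset _ _, h4, ?_⟩
  · intro z hz
    simp only [Finset.mem_insert, Finset.mem_singleton] at hz
    rcases hz with rfl | rfl | rfl <;> assumption
  · exact Finset.card_eq_three.2 ⟨p, x, y, h1, h2, h3, rfl⟩
  · intro T hT hTc heT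
    rw [Finset.disjoint_left]
    intro q hqT hqQ
    obtain ⟨-, g1, g2, g3, g4⟩ := Finset.mem_filter.1 hqQ
    have hpT : p ∈ T := heT (by simp)
    have hxT : x ∈ T := heT (by simp)
    have hyT : y ∈ T := heT (by simp)
    have hsub : ({x, y, q} : Set (ℝ × ℝ)) ⊆ T := by
      intro z hz
      simp only [Set.mem_insert_iff, Set.mem_singleton_iff] at hz
      rcases hz with rfl | rfl | rfl <;> assumption
    have hext : p ∈ (convexHull ℝ ({x, y, q} : Set (ℝ × ℝ))).extremePoints ℝ :=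
      inter_extremePoints_subset_extremePoints_of_subset (convexHull_mono hsub) ⟨g4, hTc p hpT⟩
    have := extremePoints_convexHull_subset hext
    simp only [Set.mem_insert_iff, Set.mem_singleton_iff] at this
    rcases this with h | h | h
    · exact h1 h
    · exact h2 h
    · exact g1 h.symm

theorem exists_good {S C : Finset (ℝ × ℝ)} (hS : GenPos S) (hn : 16 ≤ S.card) (hC : C ⊆ S)
    (h : ¬ ConvexPos C) : ∃ e ⊆ C, Good S e := by
  classical
  obtain ⟨p, hp, a, ha, b, hb, c, hc, pa, pb, pc, ab, ac, bc, hconv⟩ := four hS hC h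
  have har : ar a b c ≠ 0 := ar_ne ab (hS a (hC ha) b (hC hb) c (hC hc) ab ac bc)
  have hcov : S \ {p, a, b, c} ⊆ Q S p b c ∪ (Q S p a c ∪ Q S p a b) := by
    intro q hq
    simp only [Finset.mem_sdiff, Finset.mem_insert, Finset.mem_singleton, not_or] at hq
    obtain ⟨hqS, q1, q2, q3, q4⟩ := hq
    simp only [Finset.mem_union, Q, Finset.mem_filter]
    rcases exchange har hconv q with h | h | h
    · exact Or.inl ⟨hqS, q1, q3, q4, h⟩
    · exact Or.inr (Or.inl ⟨hqS, q1, q2, q4, h⟩)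
    · exact Or.inr (Or.inr ⟨hqS, q1, q2, q3, h⟩)
  have hc1 := Finset.card_le_card hcov
  have hc2 := Finset.card_union_le (Q S p b c) (Q S p a c ∪ Q S p a b)
  have hc3 := Finset.card_union_le (Q S p a c) (Q S p a b)
  have hc4 : S.card - 4 ≤ (S \ {p, a, b, c}).card := by
    have h1 := Finset.le_card_sdiff ({p, a, b, c} : Finset (ℝ × ℝ)) S
    have h2 : ({p, a, b, c} : Finset (ℝ × ℝ)).card ≤ 4 := Finset.card_le_four
    omega
  have hsub : ∀ x ∈ C, ∀ y ∈ C, ({p, x, y} : Finset (ℝ × ℝ)) ⊆ C := by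
    intro x hx y hy z hz
    simp only [Finset.mem_insert, Finset.mem_singleton] at hz
    rcases hz with rfl | rfl | rfl <;> assumption
  have hor : S.card ≤ 4 * (Q S p b c).card ∨ S.card ≤ 4 * (Q S p a c).card ∨
      S.card ≤ 4 * (Q S p a b).card := by omega
  rcases hor with h | h | h
  · exact ⟨{p, b, c}, hsub b hb c hc, p, hC hp, b, hC hb, c, hC hc, pb, pc, bc, rfl, h⟩
  · exact ⟨{p, a, c}, hsub a ha c hc, p, hC hp, a, hC ha, c, hC hc, pa, pc, ac, rfl, h⟩
  · exact ⟨{p, a, b}, hsub a ha b hb, p, hC hp, a, hC ha, b, hC hb, pa, pb, ab, rfl, h⟩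

end GEO_

open GEO_ in
theorem tGEO : T_GEO := by
  classical
  intro S ε D hS hF hn hD
  have trans : ∀ R : Finset (ℝ × ℝ), (∀ e, Good S e → ∃ v ∈ e, v ∈ R) → ε * S.card ≤ R.card := by
    intro R hR
    have hconv : ConvexPos (S \ R) := by
      by_contra hcon
      obtain ⟨e, he, hg⟩ := exists_good hS hn Finset.sdiff_subset hcon
      obtain ⟨v, hv, hvR⟩ := hR e hg
      exact (Finset.mem_sdiff.1 (he hv)).2 hvR
    have h1 := hF _ Finset.sdiff_subset hconv
    have h2 : S.card ≤ (S \ R).card + R.card := by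
      have := Finset.le_card_sdiff R S
      omega
    have h3 : (S.card : ℝ) ≤ (S \ R).card + R.card := by exact_mod_cast h2
    linarith
  set W0 : Finset (Finset (ℝ × ℝ)) := (S.powerset).filter fun e => Good S e with hW0
  have memW0 : ∀ e, e ∈ W0 ↔ Good S e := by
    intro e
    rw [hW0, Finset.mem_filter, Finset.mem_powerset]
    exact ⟨fun h => h.2, fun h => ⟨(good_prop h).1, h⟩⟩
  set deg : Finset (Finset (ℝ × ℝ)) → (ℝ × ℝ) → ℕ := fun W v => (W.filter fun e => v ∈ e).card
    with hdeg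
  have hne : ((W0.powerset).filter fun W => ∀ v, deg W v ≤ D).Nonempty := by
    refine ⟨∅, Finset.mem_filter.2 ⟨Finset.empty_mem_powerset _, fun v => ?_⟩⟩
    simp [hdeg]
  obtain ⟨W, hW, hmax⟩ := Finset.exists_max_image _ (fun W => W.card) hne
  obtain ⟨hW1, hW2⟩ := Finset.mem_filter.1 hW
  rw [Finset.mem_powerset] at hW1
  have hgood : ∀ e ∈ W, Good S e := fun e he => (memW0 e).1 (hW1 he)
  refine ⟨W, fun e he => ⟨(good_prop (hgood e he)).1, (good_prop (hgood e he)).2.1⟩, hW2, ?_,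
    fun e he => (good_prop (hgood e he)).2.2⟩
  set H : Finset (ℝ × ℝ) := S.filter fun v => deg W v = D with hH
  -- double counting
  have hcount : D * H.card ≤ 3 * W.card := by
    have h1 : ∑ v ∈ S, deg W v = ∑ e ∈ W, (S.filter fun v => v ∈ e).card := by
      simp only [hdeg, Finset.card_filter]
      exact Finset.sum_comm
    have h2 : ∑ e ∈ W, (S.filter fun v => v ∈ e).card = 3 * W.card := by
      have : ∀ e ∈ W, (S.filter fun v => v ∈ e).card = 3 := by
        intro e he
        obtain ⟨g1, g2, -⟩ := good_prop (hgood e he)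
        rw [Finset.filter_mem_eq_inter, Finset.inter_eq_right.2 g1, g2]
      rw [Finset.sum_congr rfl this, Finset.sum_const, smul_eq_mul, mul_comm]
    have h3 : ∑ v ∈ H, deg W v ≤ ∑ v ∈ S, deg W v :=
      Finset.sum_le_sum_of_subset (Finset.filter_subset _ _)
    have h4 : ∑ v ∈ H, deg W v = D * H.card := by
      have : ∀ v ∈ H, deg W v = D := fun v hv => (Finset.mem_filter.1 hv).2
      rw [Finset.sum_congr rfl this, Finset.sum_const, smul_eq_mul, mul_comm]
    omega
  -- the transversal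
  have hpt : ∀ e ∈ W, ∃ v, v ∈ e := fun e he =>
    Finset.card_pos.1 (by rw [(good_prop (hgood e he)).2.1]; norm_num)
  choose! g hg using hpt
  have hR := trans (H ∪ W.image g) (by
    intro e he
    by_cases heW : e ∈ W
    · exact ⟨g e, hg e heW, Finset.mem_union_right _ (Finset.mem_image_of_mem g heW)⟩
    · by_contra hcon
      push Not at hcon
      have hlt : ∀ v ∈ e, deg W v < D := by
        intro v hv
        have h1 := hcon v hv
        have h2 : v ∉ H := fun h => h1 (Finset.mem_union_left _ h)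
        have h3 : v ∈ S := (good_prop he).1 hv
        have h4 : deg W v ≠ D := fun h => h2 (Finset.mem_filter.2 ⟨h3, h⟩)
        exact lt_of_le_of_ne (hW2 v) h4
      have hins : insert e W ∈ (W0.powerset).filter fun W => ∀ v, deg W v ≤ D := by
        refine Finset.mem_filter.2 ⟨Finset.mem_powerset.2 (Finset.insert_subset ((memW0 e).2 he) hW1),
          fun v => ?_⟩
        simp only [hdeg, Finset.filter_insert]
        split_ifs with hv
        · have h1 := hlt v hv
          have h2 := Finset.card_insert_le e (W.filter fun e => v ∈ e)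
          simp only [hdeg] at h1
          omega
        · exact hW2 v
      have := hmax _ hins
      rw [Finset.card_insert_of_notMem heW] at this
      omega)
  have h5 : ((H ∪ W.image g).card : ℝ) ≤ H.card + W.card := by
    have h1 := Finset.card_union_le H (W.image g)
    have h2 := Finset.card_image_le (s := W) (f := g)
    exact_mod_cast h1.trans (by omega)
  have hD0 : (0 : ℝ) < D := by exact_mod_cast hD
  have h6 : (H.card : ℝ) ≤ W.card * (3 / D) := by
    rw [mul_div_assoc', le_div_iff₀ hD0]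
    have : ((D * H.card : ℕ) : ℝ) ≤ ((3 * W.card : ℕ) : ℝ) := by exact_mod_cast hcount
    push_cast at this
    linarith
  calc ε * S.card ≤ _ := hR
    _ ≤ _ := h5
    _ ≤ W.card * (3 / D) + W.card := by linarith
    _ = W.card * (1 + 3 / D) := by ring

end Pool.Agent.SBC
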