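import Pool.Agent.SBC.Targets

set_option autoImplicit false

/-!
# Janson's inequality for 3-uniform hypergraphs
-/

namespace Pool.Agent.SBC

namespace JAN_

open Finset

variable {α : Type} [DecidableEq α]

/-- expectation of a function of a random subset -/
def Ex (q : ℝ) (S : Finset α) (φ : Finset α → ℝ) : ℝ :=
  ∑ T ∈ S.powerset, q ^ T.card * (1 - q) ^ (S.card - T.card) * φ T

omit [DecidableEq α] in
lemma Ex_empty (q : ℝ) (φ : Finset α → ℝ) : Ex q ∅ φ = φ ∅ := by
  simp [Ex]

lemma Ex_insert (q : ℝ) {S : Finset α} {a : α} (ha : a ∉ S) (φ : Finset α → ℝ) :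
    Ex q (insert a S) φ = (1 - q) * Ex q S φ + q * Ex q S (fun T => φ (insert a T)) := by
  unfold Ex
  rw [sum_powerset_insert ha, mul_sum, mul_sum]
  congr 1
  · refine sum_congr rfl fun T hT => ?_
    have h1 := card_le_card (mem_powerset.1 hT)
    rw [card_insert_of_notMem ha, Nat.succ_sub h1, pow_succ]
    ring
  · refine sum_congr rfl fun T hT => ?_
    have h1 : a ∉ T := fun h => ha (mem_powerset.1 hT h)
    rw [card_insert_of_notMem ha, card_insert_of_notMem h1, Nat.add_sub_add_right, pow_succ]
    ring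

omit [DecidableEq α] in
lemma Ex_congr (q : ℝ) {S : Finset α} {φ ψ : Finset α → ℝ} (h : ∀ T ⊆ S, φ T = ψ T) :
    Ex q S φ = Ex q S ψ :=
  sum_congr rfl fun T hT => by rw [h T (mem_powerset.1 hT)]

omit [DecidableEq α] in
lemma Ex_mono {q : ℝ} (h0 : 0 ≤ q) (h1 : q ≤ 1) {S : Finset α} {φ ψ : Finset α → ℝ}
    (h : ∀ T ⊆ S, φ T ≤ ψ T) : Ex q S φ ≤ Ex q S ψ := by
  refine sum_le_sum fun T hT => ?_
  have h2 : 0 ≤ q ^ T.card * (1 - q) ^ (S.card - T.card) :=
    mul_nonneg (pow_nonneg h0 _) (pow_nonneg (by linarith) _)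
  exact mul_le_mul_of_nonneg_left (h T (mem_powerset.1 hT)) h2

omit [DecidableEq α] in
lemma Ex_nonneg {q : ℝ} (h0 : 0 ≤ q) (h1 : q ≤ 1) {S : Finset α} {φ : Finset α → ℝ}
    (h : ∀ T ⊆ S, 0 ≤ φ T) : 0 ≤ Ex q S φ := by
  refine sum_nonneg fun T hT => ?_
  have h2 : 0 ≤ q ^ T.card * (1 - q) ^ (S.card - T.card) :=
    mul_nonneg (pow_nonneg h0 _) (pow_nonneg (by linarith) _)
  exact mul_nonneg h2 (h T (mem_powerset.1 hT))

omit [DecidableEq α] in
lemma Ex_sub (q : ℝ) (S : Finset α) (φ ψ : Finset α → ℝ) :
    Ex q S (fun T => φ T - ψ T) = Ex q S φ - Ex q S ψ := by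
  unfold Ex
  rw [← sum_sub_distrib]
  exact sum_congr rfl fun T _ => by ring

omit [DecidableEq α] in
lemma Ex_sum (q : ℝ) (S : Finset α) {ι : Type} (N : Finset ι) (φ : ι → Finset α → ℝ) :
    Ex q S (fun T => ∑ f ∈ N, φ f T) = ∑ f ∈ N, Ex q S (φ f) := by
  unfold Ex
  rw [sum_comm]
  exact sum_congr rfl fun T _ => by rw [mul_sum]

lemma Ex_const (q : ℝ) (S : Finset α) (c : ℝ) : Ex q S (fun _ => c) = c := by
  induction S using Finset.induction_on with
  | empty => exact Ex_empty q _
  | insert a S ha ih =>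
    rw [Ex_insert q ha, ih]
    ring

/-- splitting -/
lemma Ex_union (q : ℝ) (S' : Finset α) (e : Finset α) : ∀ φ : Finset α → ℝ, Disjoint e S' →
    Ex q (e ∪ S') φ = Ex q e (fun A => Ex q S' (fun B => φ (A ∪ B))) := by
  induction e using Finset.induction_on with
  | empty =>
    intro φ _
    rw [empty_union, Ex_empty]
    simp only [empty_union]
  | insert a e ha ih =>
    intro φ hd
    rw [disjoint_insert_left] at hd
    have h1 : a ∉ e ∪ S' := by
      rw [mem_union, not_or]
      exact ⟨ha, hd.1⟩
    rw [insert_union, Ex_insert q h1, ih _ hd.2, ih _ hd.2, Ex_insert q ha]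
    simp only [insert_union]

/-- independence -/
lemma indep (q : ℝ) {S e : Finset α} (he : e ⊆ S) (ψ : Finset α → ℝ) :
    Ex q S (fun T => (if e ⊆ T then 1 else 0) * ψ (T \ e)) =
      q ^ e.card * Ex q S (fun T => ψ (T \ e)) := by
  have hS : S = e ∪ (S \ e) := (union_sdiff_of_subset he).symm
  have hd : Disjoint e (S \ e) := disjoint_sdiff
  have key : ∀ φ : Finset α → ℝ, Ex q S φ =
      Ex q e (fun A => Ex q (S \ e) (fun B => φ (A ∪ B))) := by
    intro φ
    conv_lhs => rw [hS]
    exact Ex_union q (S \ e) e φ hd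
  have hB : ∀ A ⊆ e, ∀ B ⊆ S \ e, (A ∪ B) \ e = B := by
    intro A hA B hB
    ext x
    simp only [mem_sdiff, mem_union]
    constructor
    · rintro ⟨h1 | h1, h2⟩
      · exact absurd (hA h1) h2
      · exact h1
    · intro h1
      exact ⟨Or.inr h1, (mem_sdiff.1 (hB h1)).2⟩
  rw [key, key]
  have e1 : Ex q e (fun A => Ex q (S \ e) (fun B => (if e ⊆ A ∪ B then 1 else 0) *
      ψ ((A ∪ B) \ e))) = Ex q e (fun A => (if A = e then 1 else 0) * Ex q (S \ e) ψ) := by
    refine Ex_congr q fun A hA => ?_
    by_cases h : A = e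
    · rw [if_pos h, one_mul]
      refine Ex_congr q fun B hBS => ?_
      rw [hB A hA B hBS, if_pos, one_mul]
      rw [h]
      exact subset_union_left
    · rw [if_neg h, zero_mul]
      refine (Ex_congr q (ψ := fun _ => 0) fun B hBS => ?_).trans (Ex_const q (S \ e) 0)
      rw [if_neg, zero_mul]
      intro h2
      apply h
      refine Subset.antisymm hA fun x hx => ?_
      rcases mem_union.1 (h2 hx) with h3 | h3
      · exact h3
      · exact absurd hx (mem_sdiff.1 (hBS h3)).2
  have e2 : Ex q e (fun A => Ex q (S \ e) (fun B => ψ ((A ∪ B) \ e))) = Ex q (S \ e) ψ := by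
    rw [← Ex_const q e (Ex q (S \ e) ψ)]
    refine Ex_congr q fun A hA => ?_
    exact Ex_congr q fun B hBS => by rw [hB A hA B hBS]
  rw [e1, e2]
  generalize Ex q (S \ e) ψ = c
  unfold Ex
  rw [sum_eq_single e]
  · simp
  · intro A _ hA
    simp [hA]
  · intro h
    exact absurd (mem_powerset.2 (Subset.refl e)) h

lemma Ex_ind (q : ℝ) {S e : Finset α} (he : e ⊆ S) :
    Ex q S (fun T => if e ⊆ T then 1 else 0) = q ^ e.card := by
  have h := indep q he (fun _ => 1)
  rw [Ex_const, mul_one] at h
  simpa using h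

/-- Harris -/
lemma harris {q : ℝ} (h0 : 0 ≤ q) (h1 : q ≤ 1) (S : Finset α) : ∀ φ ψ : Finset α → ℝ,
    (∀ T T' : Finset α, T ⊆ T' → φ T' ≤ φ T) → (∀ T T' : Finset α, T ⊆ T' → ψ T ≤ ψ T') →
    Ex q S (fun T => φ T * ψ T) ≤ Ex q S φ * Ex q S ψ := by
  induction S using Finset.induction_on with
  | empty =>
    intro φ ψ _ _
    rw [Ex_empty, Ex_empty, Ex_empty]
  | insert a S ha ih =>
    intro φ ψ hφ hψ
    rw [Ex_insert q ha, Ex_insert q ha, Ex_insert q ha]
    have g1 := ih φ ψ hφ hψ
    have g2 := ih (fun T => φ (insert a T)) (fun T => ψ (insert a T))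
      (fun T T' h => hφ _ _ (insert_subset_insert a h))
      (fun T T' h => hψ _ _ (insert_subset_insert a h))
    have g3 : Ex q S (fun T => φ (insert a T)) ≤ Ex q S φ :=
      Ex_mono h0 h1 fun T _ => hφ _ _ (subset_insert a T)
    have g4 : Ex q S ψ ≤ Ex q S (fun T => ψ (insert a T)) :=
      Ex_mono h0 h1 fun T _ => hψ _ _ (subset_insert a T)
    set F0 := Ex q S φ
    set F1 := Ex q S (fun T => φ (insert a T))
    set G0 := Ex q S ψ
    set G1 := Ex q S (fun T => ψ (insert a T))
    have h2 : 0 ≤ 1 - q := by linarith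
    have g5 : 0 ≤ (q * (1 - q)) * ((F0 - F1) * (G1 - G0)) :=
      mul_nonneg (mul_nonneg h0 h2) (mul_nonneg (by linarith) (by linarith))
    have g6 := mul_le_mul_of_nonneg_left g1 h2
    have g7 := mul_le_mul_of_nonneg_left g2 h0
    nlinarith

/-- no edge is contained in `T` -/
def no (W : Finset (Finset α)) (T : Finset α) : ℝ := if ∀ e ∈ W, ¬ e ⊆ T then 1 else 0

lemma no_nonneg (W : Finset (Finset α)) (T : Finset α) : 0 ≤ no W T := by
  unfold no
  split_ifs
  · exact zero_le_one
  · exact le_refl 0

lemma no_anti (W : Finset (Finset α)) (T T' : Finset α) (h : T ⊆ T') : no W T' ≤ no W T := by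
  unfold no
  by_cases h1 : ∀ e ∈ W, ¬ e ⊆ T'
  · rw [if_pos h1, if_pos fun e he h2 => h1 e he (h2.trans h)]
  · rw [if_neg h1]
    split_ifs
    · exact zero_le_one
    · exact le_refl 0

/-- the main estimate -/
lemma main {q : ℝ} (h0 : 0 ≤ q) (h1 : q ≤ 1) (S : Finset α) (D : ℕ) (W : Finset (Finset α)) :
    (∀ e ∈ W, e ⊆ S ∧ e.card = 3) → (∀ v, (W.filter fun e => v ∈ e).card ≤ D) →
    Ex q S (no W) ≤ Real.exp (-(W.card * (q ^ 3 - 3 * D * q ^ 4))) := by
  induction W using Finset.induction_on with
  | empty =>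
    intro _ _
    have : (no (∅ : Finset (Finset α))) = fun _ => 1 := by
      funext T
      simp [no]
    rw [this, Ex_const]
    simp
  | insert e W he ih =>
    intro hW hD
    have hW' : ∀ f ∈ W, f ⊆ S ∧ f.card = 3 := fun f hf => hW f (mem_insert_of_mem hf)
    have hD' : ∀ v, (W.filter fun e => v ∈ e).card ≤ D := fun v =>
      (card_le_card (filter_subset_filter _ (subset_insert e W))).trans (hD v)
    have ih' := ih hW' hD'
    obtain ⟨heS, he3⟩ := hW e (mem_insert_self e W)
    set N := W.filter fun f => ¬ Disjoint f e with hN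
    set W1 := W.filter fun f => Disjoint f e with hW1
    set x : ℝ := q ^ 3 - 3 * D * q ^ 4 with hx
    -- the number of edges that meet `e`
    have hNcard : N.card ≤ 3 * D := by
      have h2 : N ⊆ e.biUnion fun v => W.filter fun f => v ∈ f := by
        intro f hf
        rw [hN, mem_filter, not_disjoint_iff] at hf
        obtain ⟨hf1, v, hv1, hv2⟩ := hf
        exact mem_biUnion.2 ⟨v, hv2, mem_filter.2 ⟨hf1, hv1⟩⟩
      refine (card_le_card h2).trans (card_biUnion_le.trans ?_)
      refine (sum_le_card_nsmul e _ D fun v _ => hD' v).trans ?_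
      rw [he3, smul_eq_mul]
    -- the expectation for the new family
    have e1 : Ex q S (no (insert e W)) = Ex q S (no W) -
        Ex q S (fun T => (if e ⊆ T then 1 else 0) * no W T) := by
      rw [← Ex_sub]
      refine Ex_congr q fun T _ => ?_
      unfold no
      by_cases h2 : e ⊆ T
      · rw [if_pos h2, one_mul, sub_self, if_neg]
        intro h3
        exact h3 e (mem_insert_self e W) h2
      · rw [if_neg h2, zero_mul, sub_zero]
        by_cases h3 : ∀ f ∈ W, ¬ f ⊆ T
        · rw [if_pos h3, if_pos]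
          intro f hf
          rcases mem_insert.1 hf with rfl | hf
          · exact h2
          · exact h3 f hf
        · rw [if_neg h3, if_neg]
          intro h4
          exact h3 fun f hf => h4 f (mem_insert_of_mem hf)
    -- lower bound for the subtracted term
    have e2 : Ex q S (fun T => (if e ⊆ T then 1 else 0) * no W1 T) -
        ∑ f ∈ N, Ex q S (fun T => no W1 T * (if e ∪ f ⊆ T then 1 else 0)) ≤
        Ex q S (fun T => (if e ⊆ T then 1 else 0) * no W T) := by
      rw [← Ex_sum, ← Ex_sub]
      refine Ex_mono h0 h1 fun T _ => ?_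
      have hs0 : 0 ≤ ∑ f ∈ N, no W1 T * (if e ∪ f ⊆ T then (1 : ℝ) else 0) := by
        refine sum_nonneg fun f _ => mul_nonneg (no_nonneg _ _) ?_
        split_ifs
        · exact zero_le_one
        · exact le_refl 0
      by_cases h2 : e ⊆ T
      · rw [if_pos h2, one_mul, one_mul]
        by_cases h3 : ∀ f ∈ W1, ¬ f ⊆ T
        · by_cases h4 : ∀ f ∈ W, ¬ f ⊆ T
          · have h5 : no W T = 1 := if_pos h4
            have h6 : no W1 T = 1 := if_pos h3
            rw [h5, h6]
            rw [h6] at hs0
            linarith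
          · push Not at h4
            obtain ⟨f, hf, hfT⟩ := h4
            have hfN : f ∈ N := by
              rw [hN, mem_filter]
              refine ⟨hf, fun h5 => h3 f ?_ hfT⟩
              rw [hW1, mem_filter]
              exact ⟨hf, h5⟩
            have h6 : no W1 T = 1 := if_pos h3
            have h7 : (1 : ℝ) ≤ ∑ f ∈ N, no W1 T * (if e ∪ f ⊆ T then (1 : ℝ) else 0) := by
              have h8 := single_le_sum (f := fun f => no W1 T *
                (if e ∪ f ⊆ T then (1 : ℝ) else 0)) (s := N) (fun f _ =>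
                mul_nonneg (no_nonneg _ _) (by
                  split_ifs
                  · exact zero_le_one
                  · exact le_refl 0)) hfN
              have h9 : no W1 T * (if e ∪ f ⊆ T then (1 : ℝ) else 0) = 1 := by
                rw [if_pos (union_subset h2 hfT), h6, one_mul]
              rw [h9] at h8
              exact h8
            have h10 := no_nonneg W T
            rw [h6] at h7 ⊢
            linarith
        · have h6 : no W1 T = 0 := if_neg h3
          have h10 := no_nonneg W T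
          rw [h6] at hs0 ⊢
          linarith
      · rw [if_neg h2, zero_mul, zero_mul]
        linarith
    -- independence for the first term
    have e3 : Ex q S (fun T => (if e ⊆ T then 1 else 0) * no W1 T) = q ^ 3 * Ex q S (no W1) := by
      have h2 : ∀ T, no W1 T = no W1 (T \ e) := by
        intro T
        have h3 : (∀ f ∈ W1, ¬ f ⊆ T) ↔ ∀ f ∈ W1, ¬ f ⊆ T \ e := by
          constructor
          · intro h4 f hf h5
            exact h4 f hf (h5.trans sdiff_subset)
          · intro h4 f hf h5
            refine h4 f hf fun v hv => mem_sdiff.2 ⟨h5 hv, fun hve => ?_⟩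
            rw [hW1, mem_filter] at hf
            exact (disjoint_left.1 hf.2 hv) hve
        unfold no
        by_cases h4 : ∀ f ∈ W1, ¬ f ⊆ T
        · rw [if_pos h4, if_pos (h3.1 h4)]
        · rw [if_neg h4, if_neg fun h5 => h4 (h3.2 h5)]
      have h3 := indep q heS (no W1)
      rw [he3] at h3
      simp only [← h2] at h3
      exact h3
    -- Harris for the other terms
    have hD0 : 0 ≤ Ex q S (no W1) := Ex_nonneg h0 h1 fun T _ => no_nonneg _ _
    have e4 : ∀ f ∈ N, Ex q S (fun T => no W1 T * (if e ∪ f ⊆ T then 1 else 0)) ≤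
        q ^ 4 * Ex q S (no W1) := by
      intro f hf
      rw [hN, mem_filter] at hf
      obtain ⟨hfS, hf3⟩ := hW' f hf.1
      have hfe : f ≠ e := fun h => he (h ▸ hf.1)
      have h2 := harris h0 h1 S (no W1) (fun T => if e ∪ f ⊆ T then (1 : ℝ) else 0)
        (no_anti W1) (by
          intro T T' hT
          by_cases h3 : e ∪ f ⊆ T
          · rw [if_pos h3, if_pos (h3.trans hT)]
          · rw [if_neg h3]
            split_ifs
            · exact zero_le_one
            · exact le_refl 0)
      rw [Ex_ind q (union_subset heS hfS)] at h2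
      refine h2.trans ?_
      rw [mul_comm]
      refine mul_le_mul_of_nonneg_right ?_ hD0
      refine pow_le_pow_of_le_one h0 h1 ?_
      by_contra hcon
      rw [not_le] at hcon
      have h3 : e.card ≤ (e ∪ f).card := card_le_card subset_union_left
      have h4 : e = e ∪ f := eq_of_subset_of_card_le subset_union_left (by omega)
      have h5 : f = e ∪ f := eq_of_subset_of_card_le subset_union_right (by omega)
      exact hfe (h5.trans h4.symm)
    have e5 : ∑ f ∈ N, Ex q S (fun T => no W1 T * (if e ∪ f ⊆ T then 1 else 0)) ≤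
        (3 * D) * (q ^ 4 * Ex q S (no W1)) := by
      refine (sum_le_sum e4).trans ?_
      rw [sum_const, nsmul_eq_mul]
      refine mul_le_mul_of_nonneg_right ?_ (mul_nonneg (pow_nonneg h0 4) hD0)
      exact_mod_cast hNcard
    have hB0 : 0 ≤ Ex q S (no W) := Ex_nonneg h0 h1 fun T _ => no_nonneg _ _
    have hBD : Ex q S (no W) ≤ Ex q S (no W1) := by
      refine Ex_mono h0 h1 fun T _ => ?_
      unfold no
      by_cases h4 : ∀ f ∈ W, ¬ f ⊆ T
      · rw [if_pos h4, if_pos fun f hf => h4 f (mem_filter.1 hf).1]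
      · rw [if_neg h4]
        split_ifs
        · exact zero_le_one
        · exact le_refl 0
    have e6 : x * Ex q S (no W) ≤ Ex q S (fun T => (if e ⊆ T then 1 else 0) * no W T) := by
      rcases le_total 0 x with hx0 | hx0
      · have h2 : x * Ex q S (no W) ≤ x * Ex q S (no W1) := mul_le_mul_of_nonneg_left hBD hx0
        have h3 : x * Ex q S (no W1) = q ^ 3 * Ex q S (no W1) -
            (3 * D) * (q ^ 4 * Ex q S (no W1)) := by
          rw [hx]
          ring
        rw [e3] at e2
        linarith
      · have h2 : x * Ex q S (no W) ≤ 0 := mul_nonpos_of_nonpos_of_nonneg hx0 hB0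
        refine h2.trans (Ex_nonneg h0 h1 fun T _ => mul_nonneg ?_ (no_nonneg _ _))
        split_ifs
        · exact zero_le_one
        · exact le_refl 0
    have e7 : Ex q S (no (insert e W)) ≤ Ex q S (no W) * Real.exp (-x) := by
      have h2 : 1 - x ≤ Real.exp (-x) := by
        have := Real.add_one_le_exp (-x)
        linarith
      calc Ex q S (no (insert e W)) ≤ Ex q S (no W) * (1 - x) := by
            rw [e1]
            linarith
        _ ≤ Ex q S (no W) * Real.exp (-x) := mul_le_mul_of_nonneg_left h2 hB0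
    calc Ex q S (no (insert e W)) ≤ Ex q S (no W) * Real.exp (-x) := e7
      _ ≤ Real.exp (-(W.card * x)) * Real.exp (-x) :=
          mul_le_mul_of_nonneg_right ih' (Real.exp_pos _).le
      _ = Real.exp (-((insert e W).card * x)) := by
          rw [← Real.exp_add, card_insert_of_notMem he]
          congr 1
          push_cast
          ring

end JAN_

open JAN_ in
/-- JAN -/
theorem tJAN : T_JAN := by
  intro S W D q h0 h1 hW hD
  have h2 := main h0 h1 S D W hW hD
  have h3 : pr q S (fun T => ∀ e ∈ W, ¬ e ⊆ T) = Ex q S (no W) := by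
    classical
    unfold pr Ex
    rw [Finset.sum_filter]
    refine Finset.sum_congr rfl fun T _ => ?_
    unfold no
    by_cases h : ∀ e ∈ W, ¬ e ⊆ T
    · rw [if_pos h, if_pos h, mul_one]
    · rw [if_neg h, if_neg h, mul_zero]
  rw [h3]
  refine h2.trans (le_of_eq ?_)
  congr 1
  ring

end Pool.Agent.SBC
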