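import Pool.Agent.SBC.SUB

set_option autoImplicit false

/-!
# The lower bound
-/

namespace Pool.Agent.SBC

open Filter Topology

namespace LOW_

theorem natCast_pow13 : Tendsto (fun n : ℕ => (n : ℝ) ^ (1 / 3 : ℝ)) atTop atTop :=
  (tendsto_rpow_atTop (by norm_num)).comp tendsto_natCast_atTop_atTop

theorem neg13 : Tendsto (fun n : ℕ => (n : ℝ) ^ (-(1 / 3) : ℝ)) atTop (𝓝 0) :=
  (tendsto_rpow_neg_atTop (by norm_num)).comp tendsto_natCast_atTop_atTop

theorem neg23 : Tendsto (fun n : ℕ => (n : ℝ) ^ (-(2 / 3) : ℝ)) atTop (𝓝 0) :=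
  (tendsto_rpow_neg_atTop (by norm_num)).comp tendsto_natCast_atTop_atTop

theorem neg1 : Tendsto (fun n : ℕ => (n : ℝ)⁻¹) atTop (𝓝 0) :=
  tendsto_inv_atTop_nhds_zero_nat

theorem mul13 {n : ℕ} (hn : 0 < n) : (n : ℝ) * (n : ℝ) ^ (-(1 / 3) : ℝ) = (n : ℝ) ^ (2 / 3 : ℝ) := by
  have : (0 : ℝ) < n := by exact_mod_cast hn
  nth_rewrite 1 [← Real.rpow_one (n : ℝ)]
  rw [← Real.rpow_add this]
  norm_num

theorem cube13 {n : ℕ} (hn : 0 < n) : ((n : ℝ) ^ (-(1 / 3) : ℝ)) ^ 3 = (n : ℝ)⁻¹ := by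
  have : (0 : ℝ) < n := by exact_mod_cast hn
  rw [← Real.rpow_natCast, ← Real.rpow_mul this.le]
  norm_num
  exact Real.rpow_neg_one _

/-- `(1 - x)^t ≥ exp (-(t x / (1 - x)))` -/
theorem one_sub_pow {x : ℝ} (h1 : x < 1) (t : ℕ) :
    Real.exp (-(t * (x / (1 - x)))) ≤ (1 - x) ^ t := by
  have h2 : 0 < 1 - x := by linarith
  have h3 : Real.exp (-(x / (1 - x))) ≤ 1 - x := by
    have h4 : (1 - x)⁻¹ ≤ Real.exp (x / (1 - x)) := by
      have : (1 - x)⁻¹ = x / (1 - x) + 1 := by field_simp; ring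
      rw [this]
      exact Real.add_one_le_exp _
    rw [Real.exp_neg]
    exact inv_le_of_inv_le₀ h2 h4
  calc Real.exp (-(t * (x / (1 - x)))) = (Real.exp (-(x / (1 - x)))) ^ t := by
        rw [← Real.exp_nat_mul]
        ring_nf
    _ ≤ (1 - x) ^ t := pow_le_pow_left₀ (Real.exp_pos _).le h3 t

end LOW_

open LOW_ in
theorem tLOW (hP : T_PRB) (hT : T_TRA) (hTee : T_TEE) : T_LOW := by
  intro ε p c h1 h2 h3 h4 hc hc0
  have hΛ : 0 < Real.log (1 / p) := Real.log_pos (by rw [lt_div_iff₀ h3]; linarith)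
  have hc' : ε * c ^ 3 < Real.log (1 / p) := by
    rw [lt_div_iff₀ h1] at hc
    linarith
  -- choice of `δ`
  obtain ⟨δ, hδ, hδ1⟩ : ∃ δ : ℝ, 0 < δ ∧ ε * (c * (1 + δ)) ^ 3 < Real.log (1 / p) := by
    have hcont : Tendsto (fun δ : ℝ => ε * (c * (1 + δ)) ^ 3) (𝓝[>] 0) (𝓝 (ε * (c * (1 + 0)) ^ 3)) := by
      refine Tendsto.mono_left ?_ nhdsWithin_le_nhds
      exact (Continuous.tendsto (by fun_prop) 0)
    have h5 : ε * (c * (1 + 0)) ^ 3 < Real.log (1 / p) := by simpa using hc'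
    have h6 := hcont.eventually (gt_mem_nhds h5)
    obtain ⟨δ, h7, h8⟩ := (h6.and self_mem_nhdsWithin).exists
    exact ⟨δ, h8, h7⟩
  set κ : ℝ := c * (1 + δ) with hκ
  have hκ0 : 0 < κ := by positivity
  -- the quantities tending to a limit
  set a : ℕ → ℝ := fun n => (n : ℝ) ^ (-(1 / 3) : ℝ) with ha
  have ha0 : Tendsto a atTop (𝓝 0) := neg13
  have hq0 : Tendsto (fun n => κ * a n) atTop (𝓝 0) := by simpa using ha0.const_mul κ
  -- lower bound for the probability of no tooth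
  set f : ℕ → ℝ := fun n => Real.exp (-((ε + (n : ℝ)⁻¹) * κ ^ 3 / (1 - (κ * a n) ^ 3))) -
    κ / (c * δ) ^ 2 * (n : ℝ) ^ (-(2 / 3) : ℝ) with hf
  have hflim : Tendsto f atTop (𝓝 (Real.exp (-(ε * κ ^ 3)))) := by
    have t1 : Tendsto (fun n : ℕ => (ε + (n : ℝ)⁻¹) * κ ^ 3 / (1 - (κ * a n) ^ 3)) atTop
        (𝓝 ((ε + 0) * κ ^ 3 / (1 - 0 ^ 3))) := by
      refine Tendsto.div ((tendsto_const_nhds.add neg1).mul_const _)
        (tendsto_const_nhds.sub (hq0.pow 3)) (by norm_num)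
    have t2 : Tendsto (fun n : ℕ => κ / (c * δ) ^ 2 * (n : ℝ) ^ (-(2 / 3) : ℝ)) atTop
        (𝓝 (κ / (c * δ) ^ 2 * 0)) := neg23.const_mul _
    have t3 := ((Real.continuous_exp.tendsto _).comp t1.neg).sub t2
    simp only [mul_zero, sub_zero, add_zero, ne_eq, OfNat.ofNat_ne_zero, not_false_eq_true,
      zero_pow, div_one] at t3
    exact t3
  have hlim : p < Real.exp (-(ε * κ ^ 3)) := by
    have : Real.exp (-(Real.log (1 / p))) < Real.exp (-(ε * κ ^ 3)) :=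
      Real.exp_lt_exp.2 (neg_lt_neg hδ1)
    rwa [Real.exp_neg, Real.exp_log (by positivity), one_div, inv_inv] at this
  have e1 : ∀ᶠ n : ℕ in atTop, p < f n := hflim.eventually (lt_mem_nhds hlim)
  have e2 : ∀ᶠ n : ℕ in atTop, κ * a n < 1 := hq0.eventually (gt_mem_nhds (by norm_num))
  have e3 : ∀ᶠ n : ℕ in atTop, 3 / (1 - 3 * ε) ≤ (n : ℝ) :=
    tendsto_natCast_atTop_atTop.eventually_ge_atTop _
  have e4 : ∀ᶠ n : ℕ in atTop, c ≤ (n : ℝ) ^ (1 / 3 : ℝ) := natCast_pow13.eventually_ge_atTop c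
  filter_upwards [e1, e2, e3, e4, eventually_ge_atTop 6] with n g1 g2 g3 g4 g5
  have hn : 0 < n := by omega
  have hnR : (0 : ℝ) < n := by exact_mod_cast hn
  have h13 : 0 < 1 - 3 * ε := by linarith
  have hbig : 3 ≤ (1 - 3 * ε) * n := by
    rw [div_le_iff₀ h13] at g3
    linarith
  -- the number of teeth
  set t : ℕ := ⌈ε * n⌉₊ with ht
  have ht1 : ε * n ≤ t := Nat.le_ceil _
  have ht2 : (t : ℝ) < ε * n + 1 := Nat.ceil_lt_add_one (by positivity)
  have h3t : 3 * t ≤ n := by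
    have : (3 * t : ℝ) ≤ n := by linarith
    exact_mod_cast this
  obtain ⟨S, s1, s2, s3, W, w1, w2, w3, w4⟩ := hTee n t h3t
  refine ⟨S, s1, s2, ?_, ?_⟩
  · intro C hC hCc
    rw [s1]
    rcases Nat.lt_or_ge C.card 4 with h | h
    · have h5 : (C.card : ℝ) ≤ 3 := by exact_mod_cast Nat.lt_succ_iff.1 h
      have h6 : (1 - 3 * ε) * n ≤ (1 - ε) * n := by
        apply mul_le_mul_of_nonneg_right _ hnR.le
        linarith
      linarith
    · have h5 : (C.card : ℝ) + t ≤ n := by exact_mod_cast s3 C hC hCc h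
      linarith
  · intro s hs
    -- pass to `s0 = floor (c n^(2/3))`
    set m : ℝ := (n : ℝ) ^ (2 / 3 : ℝ) with hm
    have hm0 : 0 < m := Real.rpow_pos_of_pos hnR _
    set s0 : ℕ := ⌊c * m⌋₊ with hs0
    have hs01 : (s0 : ℝ) ≤ c * m := Nat.floor_le (by positivity)
    have hss : s ≤ s0 := Nat.le_floor hs
    have hs0n : s0 ≤ S.card := by
      rw [s1]
      have h6 : (n : ℝ) = m * (n : ℝ) ^ (1 / 3 : ℝ) := by
        rw [hm, ← Real.rpow_add hnR]
        norm_num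
      have : (s0 : ℝ) ≤ n := by
        calc (s0 : ℝ) ≤ c * m := hs01
          _ ≤ (n : ℝ) ^ (1 / 3 : ℝ) * m := mul_le_mul_of_nonneg_right g4 hm0.le
          _ = n := by rw [mul_comm, ← h6]
      exact_mod_cast this
    have hq1 : 0 ≤ κ * a n := mul_nonneg hκ0.le (Real.rpow_nonneg hnR.le _)
    have hnq : (S.card : ℝ) * (κ * a n) = κ * m := by
      rw [s1, hm, ← mul13 hn, ha]
      ring
    obtain ⟨T1, -, T3⟩ := hT S ConvexPos (fun T T' h => tSUB T T' h) s0 (κ * a n) hs0n hq1 g2.le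
    have hκc : κ * m - s0 ≥ c * δ * m := by
      rw [hκ]
      linarith
    have hlt : (s0 : ℝ) < S.card * (κ * a n) := by
      rw [hnq]
      have : 0 < c * δ * m := by positivity
      linarith
    have T3' := T3 hlt
    obtain ⟨-, P2, -, -, -, P6⟩ := hP S (κ * a n) hq1 g2.le
    have P6' := P6 W w2 w3
    have P2' := P2 _ _ w4
    rw [P6'] at P2'
    have hx3 : (κ * a n) ^ 3 < 1 := pow_lt_one₀ hq1 g2 (by norm_num)
    have h7 := one_sub_pow hx3 W.card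
    have h8 : (W.card : ℝ) * ((κ * a n) ^ 3 / (1 - (κ * a n) ^ 3)) ≤
        (ε + (n : ℝ)⁻¹) * κ ^ 3 / (1 - (κ * a n) ^ 3) := by
      rw [mul_div_assoc']
      apply div_le_div_of_nonneg_right _ (by linarith)
      rw [w1, mul_pow, ha]
      simp only
      rw [cube13 hn]
      have h9 : (t : ℝ) * (n : ℝ)⁻¹ ≤ ε + (n : ℝ)⁻¹ := by
        have : (t : ℝ) * (n : ℝ)⁻¹ ≤ (ε * n + 1) * (n : ℝ)⁻¹ :=
          mul_le_mul_of_nonneg_right ht2.le (by positivity)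
        refine this.trans (le_of_eq ?_)
        field_simp
      calc (t : ℝ) * (κ ^ 3 * (n : ℝ)⁻¹) = (t : ℝ) * (n : ℝ)⁻¹ * κ ^ 3 := by ring
        _ ≤ _ := mul_le_mul_of_nonneg_right h9 (by positivity)
    have h10 : Real.exp (-((ε + (n : ℝ)⁻¹) * κ ^ 3 / (1 - (κ * a n) ^ 3))) ≤
        pr (κ * a n) S ConvexPos :=
      ((Real.exp_le_exp.2 (neg_le_neg h8)).trans h7).trans P2'
    have h11 : (S.card : ℝ) * (κ * a n) * (1 - κ * a n) / (S.card * (κ * a n) - s0) ^ 2 ≤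
        κ / (c * δ) ^ 2 * (n : ℝ) ^ (-(2 / 3) : ℝ) := by
      rw [hnq]
      have h12 : κ * m * (1 - κ * a n) ≤ κ * m :=
        mul_le_of_le_one_right (by positivity) (by linarith)
      have h13 : (c * δ * m) ^ 2 ≤ (κ * m - s0) ^ 2 :=
        pow_le_pow_left₀ (by positivity) hκc 2
      calc κ * m * (1 - κ * a n) / (κ * m - s0) ^ 2 ≤ κ * m / (c * δ * m) ^ 2 :=
            div_le_div₀ (by positivity) h12 (by positivity) h13
        _ = κ / (c * δ) ^ 2 * m⁻¹ := by field_simp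
        _ = _ := by rw [hm, Real.rpow_neg hnR.le]
    have h14 : p < prob S s0 ConvexPos := by
      have : f n = Real.exp (-((ε + (n : ℝ)⁻¹) * κ ^ 3 / (1 - (κ * a n) ^ 3))) -
        κ / (c * δ) ^ 2 * (n : ℝ) ^ (-(2 / 3) : ℝ) := rfl
      linarith
    exact h14.trans_le (T1 s hss)

end Pool.Agent.SBC
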