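import Pool.Agent.SBC.Targets

set_option autoImplicit false

/-!
# Basic facts on independent sampling
-/

namespace Pool.Agent.SBC

namespace PRB_

variable {α : Type}

open scoped Classical in
lemma pr_eq (q : ℝ) (S : Finset α) (F : Finset α → Prop) :
    pr q S F = ∑ T ∈ S.powerset, if F T then q ^ T.card * (1 - q) ^ (S.card - T.card) else 0 := by
  unfold pr
  rw [Finset.sum_filter]

lemma pr_congr (q : ℝ) (S : Finset α) {F G : Finset α → Prop} (h : ∀ T ⊆ S, (F T ↔ G T)) :
    pr q S F = pr q S G := by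
  classical
  rw [pr_eq, pr_eq]
  refine Finset.sum_congr rfl fun T hT => ?_
  by_cases hF : F T
  · rw [if_pos hF, if_pos ((h T (Finset.mem_powerset.mp hT)).mp hF)]
  · rw [if_neg hF, if_neg fun hG => hF ((h T (Finset.mem_powerset.mp hT)).mpr hG)]

lemma w_nonneg {q : ℝ} (h0 : 0 ≤ q) (h1 : q ≤ 1) (S T : Finset α) :
    0 ≤ q ^ T.card * (1 - q) ^ (S.card - T.card) :=
  mul_nonneg (pow_nonneg h0 _) (pow_nonneg (by linarith) _)

lemma pr_mono {q : ℝ} (h0 : 0 ≤ q) (h1 : q ≤ 1) (S : Finset α) {F G : Finset α → Prop}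
    (h : ∀ T ⊆ S, F T → G T) : pr q S F ≤ pr q S G := by
  classical
  rw [pr_eq, pr_eq]
  refine Finset.sum_le_sum fun T hT => ?_
  by_cases hF : F T
  · rw [if_pos hF, if_pos (h T (Finset.mem_powerset.mp hT) hF)]
  · rw [if_neg hF]
    split_ifs
    · exact w_nonneg h0 h1 S T
    · exact le_refl _

lemma pr_nonneg {q : ℝ} (h0 : 0 ≤ q) (h1 : q ≤ 1) (S : Finset α) (F : Finset α → Prop) :
    0 ≤ pr q S F := by
  classical
  rw [pr_eq]
  refine Finset.sum_nonneg fun T _ => ?_
  split_ifs
  · exact w_nonneg h0 h1 S T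
  · exact le_refl _

lemma pr_true (q : ℝ) (S : Finset α) : pr q S (fun _ => True) = 1 := by
  classical
  rw [pr_eq]
  simp only [if_true]
  rw [Finset.sum_pow_mul_eq_add_pow]
  simp

lemma pr_false (q : ℝ) (S : Finset α) : pr q S (fun _ => False) = 0 := by
  classical
  rw [pr_eq]
  simp

lemma pr_or {q : ℝ} (h0 : 0 ≤ q) (h1 : q ≤ 1) (S : Finset α) (F G : Finset α → Prop) :
    pr q S (fun T => F T ∨ G T) ≤ pr q S F + pr q S G := by
  classical
  rw [pr_eq, pr_eq, pr_eq, ← Finset.sum_add_distrib]
  refine Finset.sum_le_sum fun T _ => ?_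
  have hw := w_nonneg h0 h1 S T
  by_cases hF : F T
  · rw [if_pos (Or.inl hF), if_pos hF]
    split_ifs <;> linarith
  · by_cases hG : G T
    · rw [if_pos (Or.inr hG), if_neg hF, if_pos hG, zero_add]
    · rw [if_neg (by tauto), if_neg hF, if_neg hG, zero_add]

lemma pr_not (q : ℝ) (S : Finset α) (F : Finset α → Prop) :
    pr q S (fun T => ¬ F T) = 1 - pr q S F := by
  classical
  rw [← pr_true q S, eq_sub_iff_add_eq, pr_eq, pr_eq, pr_eq, ← Finset.sum_add_distrib]
  refine Finset.sum_congr rfl fun T _ => ?_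
  by_cases hF : F T
  · rw [if_neg (by simpa using hF), if_pos hF, if_pos trivial, zero_add]
  · rw [if_pos hF, if_neg hF, if_pos trivial, add_zero]

lemma pr_insert [DecidableEq α] (q : ℝ) {S : Finset α} {a : α} (ha : a ∉ S)
    (F : Finset α → Prop) :
    pr q (insert a S) F = (1 - q) * pr q S F + q * pr q S (fun T => F (insert a T)) := by
  classical
  rw [pr_eq, pr_eq, pr_eq, Finset.sum_powerset_insert ha, Finset.mul_sum, Finset.mul_sum]
  congr 1
  · refine Finset.sum_congr rfl fun T hT => ?_
    have hc := Finset.card_le_card (Finset.mem_powerset.mp hT)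
    rw [Finset.card_insert_of_notMem ha]
    have e : S.card + 1 - T.card = S.card - T.card + 1 := by omega
    split_ifs
    · rw [e, pow_succ]
      ring
    · rw [mul_zero]
  · refine Finset.sum_congr rfl fun T hT => ?_
    have hT' := Finset.mem_powerset.mp hT
    have haT : a ∉ T := fun h => ha (hT' h)
    rw [Finset.card_insert_of_notMem ha, Finset.card_insert_of_notMem haT]
    have e : S.card + 1 - (T.card + 1) = S.card - T.card := by omega
    split_ifs
    · rw [e, pow_succ]
      ring
    · rw [mul_zero]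

lemma pr_empty (q : ℝ) (F : Finset α → Prop) (b : Prop) (h : F ∅ ↔ b) :
    pr q ∅ F = pr q (∅ : Finset α) (fun _ => b) := by
  refine pr_congr q _ fun T hT => ?_
  rw [Finset.subset_empty.mp hT]
  exact h

/-- independence -/
lemma indep [DecidableEq α] (q : ℝ) (U V : Finset α) (F G : Finset α → Prop)
    (hUV : Disjoint U V) :
    pr q (U ∪ V) (fun T => F (T ∩ U) ∧ G (T ∩ V)) = pr q U F * pr q V G := by
  induction V using Finset.induction_on generalizing G with
  | empty =>
    rw [Finset.union_empty]
    by_cases hG : G ∅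
    · have e1 : pr q (∅ : Finset α) G = 1 := by
        rw [pr_empty q G True (by simpa using hG), pr_true]
      rw [e1, mul_one]
      refine pr_congr q U fun T hT => ?_
      rw [Finset.inter_eq_left.mpr hT, Finset.inter_empty]
      exact ⟨fun h => h.1, fun h => ⟨h, hG⟩⟩
    · have e1 : pr q (∅ : Finset α) G = 0 := by
        rw [pr_empty q G False (by simpa using hG), pr_false]
      rw [e1, mul_zero, ← pr_false q U]
      refine pr_congr q U fun T _ => ?_
      rw [Finset.inter_empty]
      exact ⟨fun h => hG h.2, fun h => h.elim⟩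
  | insert a V haV ih =>
    have hUV' : Disjoint U V := hUV.mono_right (Finset.subset_insert a V)
    have haU : a ∉ U := fun h =>
      (Finset.disjoint_left.mp hUV h) (Finset.mem_insert_self a V)
    have haUV : a ∉ U ∪ V := by
      rw [Finset.mem_union]
      tauto
    rw [Finset.union_insert, pr_insert q haUV, pr_insert q haV, mul_add]
    congr 1
    · have e1 : pr q (U ∪ V) (fun T => F (T ∩ U) ∧ G (T ∩ insert a V)) =
          pr q (U ∪ V) (fun T => F (T ∩ U) ∧ G (T ∩ V)) := by
        refine pr_congr q _ fun T hT => ?_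
        have haT : a ∉ T := fun h => haUV (hT h)
        rw [Finset.inter_insert_of_notMem haT]
      rw [e1, ih G hUV']
      ring
    · have e1 : pr q (U ∪ V) (fun T => F (insert a T ∩ U) ∧ G (insert a T ∩ insert a V)) =
          pr q (U ∪ V) (fun T => F (T ∩ U) ∧ (fun T => G (insert a T)) (T ∩ V)) := by
        refine pr_congr q _ fun T hT => ?_
        rw [Finset.insert_inter_of_notMem haU, ← Finset.insert_inter_distrib]
      rw [e1, ih (fun T => G (insert a T)) hUV']
      ring

lemma pr_disjoint [DecidableEq α] (q : ℝ) {S Q : Finset α} (hQ : Q ⊆ S) :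
    pr q S (fun T => Disjoint T Q) = (1 - q) ^ Q.card := by
  have e1 : pr q Q (fun T => Disjoint T Q) = (1 - q) ^ Q.card := by
    classical
    rw [pr_eq, Finset.sum_eq_single ∅]
    · simp
    · intro T hT hne
      rw [if_neg]
      intro hd
      apply hne
      have h1 : T ∩ Q = ∅ := Finset.disjoint_iff_inter_eq_empty.mp hd
      rwa [Finset.inter_eq_left.mpr (Finset.mem_powerset.mp hT)] at h1
    · intro h
      exact absurd (Finset.empty_mem_powerset Q) h
  have h2 := indep q (S \ Q) Q (fun _ => True) (fun T => Disjoint T Q)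
    Finset.sdiff_disjoint
  rw [Finset.sdiff_union_of_subset hQ, pr_true, one_mul, e1] at h2
  rw [← h2]
  refine pr_congr q S fun T _ => ?_
  constructor
  · intro h
    exact ⟨trivial, h.mono_left Finset.inter_subset_left⟩
  · rintro ⟨-, h⟩
    rw [Finset.disjoint_left] at h ⊢
    intro x hx hx'
    exact h (Finset.mem_inter.mpr ⟨hx, hx'⟩) hx'

lemma pr_full [DecidableEq α] (q : ℝ) (e : Finset α) :
    pr q e (fun T => ¬ e ⊆ T) = 1 - q ^ e.card := by
  rw [pr_not]
  congr 1
  classical
  rw [pr_eq, Finset.sum_eq_single e]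
  · simp
  · intro T hT hne
    rw [if_neg]
    intro hd
    exact hne (Finset.Subset.antisymm (Finset.mem_powerset.mp hT) hd)
  · intro h
    exact absurd (Finset.mem_powerset_self e) h

lemma pr_triples [DecidableEq α] (q : ℝ) (W : Finset (Finset α)) :
    ∀ S : Finset α, (∀ e ∈ W, e ⊆ S ∧ e.card = 3) →
      (∀ e ∈ W, ∀ e' ∈ W, e ≠ e' → Disjoint e e') →
      pr q S (fun T => ∀ e ∈ W, ¬ e ⊆ T) = (1 - q ^ 3) ^ W.card := by
  induction W using Finset.induction_on with
  | empty =>
    intro S _ _
    rw [Finset.card_empty, pow_zero, ← pr_true q S]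
    refine pr_congr q S fun T _ => ?_
    simp
  | insert e W he ih =>
    intro S hS hd
    obtain ⟨heS, hec⟩ := hS e (Finset.mem_insert_self e W)
    have hdis : ∀ e' ∈ W, Disjoint e' e := fun e' he' =>
      hd e' (Finset.mem_insert_of_mem he') e (Finset.mem_insert_self e W)
        (fun h => he (h ▸ he'))
    have h1 := ih (S \ e) (fun e' he' => by
        obtain ⟨k1, k2⟩ := hS e' (Finset.mem_insert_of_mem he')
        refine ⟨?_, k2⟩
        intro x hx
        rw [Finset.mem_sdiff]
        exact ⟨k1 hx, fun hx' => (Finset.disjoint_left.mp (hdis e' he') hx) hx'⟩)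
      (fun e1 h1 e2 h2 => hd e1 (Finset.mem_insert_of_mem h1) e2 (Finset.mem_insert_of_mem h2))
    have h2 := indep q (S \ e) e (fun T => ∀ e' ∈ W, ¬ e' ⊆ T) (fun T => ¬ e ⊆ T)
      Finset.sdiff_disjoint
    rw [Finset.sdiff_union_of_subset heS, h1, pr_full, hec] at h2
    rw [Finset.card_insert_of_notMem he, pow_succ, ← h2]
    refine pr_congr q S fun T _ => ?_
    rw [Finset.forall_mem_insert, and_comm]
    refine and_congr ?_ ?_
    · refine forall₂_congr fun e' he' => not_congr ?_
      constructor
      · intro h x hx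
        rw [Finset.mem_inter, Finset.mem_sdiff]
        exact ⟨h hx, (hS e' (Finset.mem_insert_of_mem he')).1 hx,
          fun hx' => (Finset.disjoint_left.mp (hdis e' he') hx) hx'⟩
      · intro h
        exact h.trans Finset.inter_subset_left
    · refine not_congr ?_
      constructor
      · intro h x hx
        exact Finset.mem_inter.mpr ⟨h hx, hx⟩
      · intro h
        exact h.trans Finset.inter_subset_left

lemma pr_union {β : Type} {q : ℝ} (h0 : 0 ≤ q) (h1 : q ≤ 1) (S : Finset α) (W : Finset β)
    (F : β → Finset α → Prop) :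
    pr q S (fun T => ∃ e ∈ W, F e T) ≤ ∑ e ∈ W, pr q S (F e) := by
  classical
  induction W using Finset.induction_on with
  | empty =>
    rw [Finset.sum_empty, ← pr_false q S]
    refine (pr_mono h0 h1 S fun T _ h => ?_)
    simp at h
  | insert a W ha ih =>
    rw [Finset.sum_insert ha]
    refine le_trans ?_ (add_le_add (le_refl _) ih)
    refine le_trans ?_ (pr_or h0 h1 S _ _)
    refine pr_mono h0 h1 S fun T _ h => ?_
    obtain ⟨e, he, hF⟩ := h
    rcases Finset.mem_insert.mp he with rfl | he
    · exact Or.inl hF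
    · exact Or.inr ⟨e, he, hF⟩

end PRB_

open PRB_ in
theorem tPRB : T_PRB := by
  classical
  intro S q h0 h1
  refine ⟨fun F => ⟨pr_nonneg h0 h1 S F, ?_⟩, fun F G h => pr_mono h0 h1 S h,
    fun F G => pr_or h0 h1 S F G, fun W F => pr_union h0 h1 S W F,
    fun Q hQ => pr_disjoint q hQ, fun W hW hd => pr_triples q W S hW hd⟩
  rw [← pr_true q S]
  exact pr_mono h0 h1 S fun _ _ _ => trivial

end Pool.Agent.SBC
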