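import Pool.Agent.SBC.Targets

/-!
Configurations with teeth on a parabola (target `T_TEE`).
-/

set_option autoImplicit false

namespace Pool.Agent.SBC

namespace TEE_

/-- the indicator of the raised points -/
def kk (t x : ℕ) : ℤ := if x % 3 = 1 ∧ x < 3 * t then 1 else 0

/-- the points of the configuration -/
noncomputable def pt (t x : ℕ) : ℝ × ℝ := ((x : ℝ), (x : ℝ) ^ 2 + 5 / 4 * (kk t x : ℝ))

lemma kk_cases (t x : ℕ) : kk t x = 0 ∨ kk t x = 1 := by
  unfold kk; split_ifs <;> simp

lemma kk_nonneg (t x : ℕ) : (0 : ℝ) ≤ kk t x := by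
  rcases kk_cases t x with h | h <;> rw [h] <;> norm_num

lemma kk_le (t x : ℕ) : (kk t x : ℝ) ≤ 1 := by
  rcases kk_cases t x with h | h <;> rw [h] <;> norm_num

lemma pt_inj (t : ℕ) : Function.Injective (pt t) := by
  intro x y h
  have := congrArg Prod.fst h
  simpa [pt] using this

/-- the determinant of three points -/
lemma det_ne (x y z kx ky kz : ℤ) (hx : kx = 0 ∨ kx = 1) (hy : ky = 0 ∨ ky = 1)
    (hz : kz = 0 ∨ kz = 1) (hxy : x ≠ y) (hxz : x ≠ z) (hyz : y ≠ z)
    (h : 4 * ((y - x) * (z - x) * (z - y)) + 5 * ((y - x) * (kz - kx) - (z - x) * (ky - kx)) = 0) :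
    False := by
  have a1 : y - x ≠ 0 := sub_ne_zero.mpr hxy.symm
  have a2 : z - x ≠ 0 := sub_ne_zero.mpr hxz.symm
  have a3 : z - y ≠ 0 := sub_ne_zero.mpr hyz.symm
  have key : ∀ u m : ℤ, u ≠ 0 → u * (4 * m + 5) = 0 → False := by
    intro u m hu hm
    rcases mul_eq_zero.mp hm with h1 | h1
    · exact hu h1
    · omega
  rcases hx with rfl | rfl <;> rcases hy with rfl | rfl <;> rcases hz with rfl | rfl
  · exact mul_ne_zero (mul_ne_zero a1 a2) a3 (by linarith)
  · exact key (y - x) ((z - x) * (z - y)) a1 (by linear_combination h)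
  · exact key (z - x) (-((y - x) * (z - y))) a2 (by linear_combination -h)
  · exact key (z - y) (-((y - x) * (z - x))) a3 (by linear_combination -h)
  · exact key (z - y) ((y - x) * (z - x)) a3 (by linear_combination h)
  · exact key (z - x) ((y - x) * (z - y)) a2 (by linear_combination h)
  · exact key (y - x) (-((z - x) * (z - y))) a1 (by linear_combination -h)
  · exact mul_ne_zero (mul_ne_zero a1 a2) a3 (by linarith)

lemma collinear_det {a b c : ℝ × ℝ} (h : Collinear ℝ {a, b, c}) :
    (b.1 - a.1) * (c.2 - a.2) - (b.2 - a.2) * (c.1 - a.1) = 0 := by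
  rw [collinear_iff_of_mem (p₀ := a) (by simp)] at h
  obtain ⟨v, hv⟩ := h
  obtain ⟨r, hr⟩ := hv b (by simp)
  obtain ⟨s, hs⟩ := hv c (by simp)
  rw [hr, hs]
  simp only [vadd_eq_add, Prod.fst_add, Prod.snd_add, Prod.smul_fst, Prod.smul_snd, smul_eq_mul]
  ring

lemma pt_gen (t x y z : ℕ) (hxy : x ≠ y) (hxz : x ≠ z) (hyz : y ≠ z) :
    ¬ Collinear ℝ {pt t x, pt t y, pt t z} := by
  intro h
  have h1 := collinear_det h
  simp only [pt] at h1
  refine det_ne (x : ℤ) y z (kk t x) (kk t y) (kk t z) (kk_cases _ _) (kk_cases _ _)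
    (kk_cases _ _) (by exact_mod_cast hxy) (by exact_mod_cast hxz) (by exact_mod_cast hyz) ?_
  have h2 : (4 * (((y : ℝ) - x) * (z - x) * (z - y)) + 5 * ((y - x) * ((kk t z : ℝ) - kk t x) -
      (z - x) * ((kk t y : ℝ) - kk t x))) = 0 := by linear_combination 4 * h1
  exact_mod_cast h2

/-- supporting lines give extreme points -/
lemma extreme_of_line (T : Finset (ℝ × ℝ)) (x : ℝ × ℝ) (hx : x ∈ T) (s : ℝ)
    (h : ∀ y ∈ T, y ≠ x → x.2 - s * x.1 < y.2 - s * y.1) :
    x ∈ (convexHull ℝ (T : Set (ℝ × ℝ))).extremePoints ℝ := by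
  have hsub : convexHull ℝ (T : Set (ℝ × ℝ)) ⊆
      {y | y = x ∨ x.2 - s * x.1 < y.2 - s * y.1} := by
    refine convexHull_min (fun y hy => ?_) ?_
    · by_cases hyx : y = x
      · exact Or.inl hyx
      · exact Or.inr (h y hy hyx)
    · rw [convex_iff_add_mem]
      intro y hy z hz a b ha hb hab
      have hb' : b = 1 - a := by linarith
      rcases hy with rfl | hy
      · rcases hz with rfl | hz
        · left
          rw [← add_smul, hab, one_smul]
        · rcases eq_or_lt_of_le hb with hb0 | hb0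
          · left
            have ha1 : a = 1 := by linarith
            rw [← hb0, ha1, one_smul, zero_smul, add_zero]
          · right
            simp only [Prod.fst_add, Prod.snd_add, Prod.smul_fst, Prod.smul_snd, smul_eq_mul]
            have := mul_lt_mul_of_pos_left hz hb0
            have ha' : a = 1 - b := by linarith
            subst ha'
            nlinarith
      · rcases eq_or_lt_of_le ha with ha0 | ha0
        · have hb1 : b = 1 := by linarith
          rw [← ha0, hb1, one_smul, zero_smul, zero_add]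
          exact hz
        · right
          simp only [Prod.fst_add, Prod.snd_add, Prod.smul_fst, Prod.smul_snd, smul_eq_mul]
          have h1 := mul_lt_mul_of_pos_left hy ha0
          have h2 : b * (x.2 - s * x.1) ≤ b * (z.2 - s * z.1) := by
            refine mul_le_mul_of_nonneg_left ?_ hb
            rcases hz with rfl | hz
            · exact le_rfl
            · exact hz.le
          subst hb'
          nlinarith
  rw [mem_extremePoints]
  refine ⟨subset_convexHull ℝ _ hx, fun y hy z hz hyz => ?_⟩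
  obtain ⟨a, b, ha, hb, hab, hxe⟩ := hyz
  have e1 := congrArg Prod.fst hxe
  have e2 := congrArg Prod.snd hxe
  simp only [Prod.fst_add, Prod.snd_add, Prod.smul_fst, Prod.smul_snd, smul_eq_mul] at e1 e2
  have e3 : a * (y.2 - s * y.1) + b * (z.2 - s * z.1) = x.2 - s * x.1 := by
    linear_combination e2 - s * e1
  have hb' : b = 1 - a := by linarith
  have hyle : x.2 - s * x.1 ≤ y.2 - s * y.1 := by
    rcases hsub hy with h1 | h1
    · rw [h1]
    · exact h1.le
  have hzle : x.2 - s * x.1 ≤ z.2 - s * z.1 := by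
    rcases hsub hz with h1 | h1
    · rw [h1]
    · exact h1.le
  have m1 := mul_le_mul_of_nonneg_left hyle ha.le
  have m2 := mul_le_mul_of_nonneg_left hzle hb.le
  have e4 : a * (x.2 - s * x.1) + b * (x.2 - s * x.1) = x.2 - s * x.1 := by
    rw [← add_mul, hab, one_mul]
  constructor
  · rcases hsub hy with h1 | h1
    · exact h1
    · exfalso
      have := mul_lt_mul_of_pos_left h1 ha
      linarith
  · rcases hsub hz with h1 | h1
    · exact h1
    · exfalso
      have := mul_lt_mul_of_pos_left h1 hb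
      linarith

/-- the teeth -/
noncomputable def tooth (t m : ℕ) : Finset (ℝ × ℝ) :=
  ({3 * m, 3 * m + 1, 3 * m + 2} : Finset ℕ).image (pt t)

lemma mem_tooth {t m : ℕ} {x : ℝ × ℝ} : x ∈ tooth t m ↔ ∃ i, i / 3 = m ∧ pt t i = x := by
  unfold tooth
  simp only [Finset.mem_image, Finset.mem_insert, Finset.mem_singleton]
  constructor
  · rintro ⟨i, hi, rfl⟩
    exact ⟨i, by omega, rfl⟩
  · rintro ⟨i, hi, rfl⟩
    exact ⟨i, by omega, rfl⟩

lemma tooth_card (t m : ℕ) : (tooth t m).card = 3 := by
  unfold tooth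
  rw [Finset.card_image_of_injective _ (pt_inj t)]
  rw [Finset.card_insert_of_notMem, Finset.card_insert_of_notMem, Finset.card_singleton]
  · simp
  · simp

lemma tooth_disj {t m m' : ℕ} (h : m ≠ m') : Disjoint (tooth t m) (tooth t m') := by
  rw [Finset.disjoint_left]
  intro x hx hx'
  obtain ⟨i, hi, rfl⟩ := mem_tooth.mp hx
  obtain ⟨i', hi', h'⟩ := mem_tooth.mp hx'
  have := pt_inj t h'
  omega

lemma convex_of_noTooth (n t : ℕ) (T : Finset (ℝ × ℝ)) (hT : T ⊆ (Finset.range n).image (pt t))
    (hno : ∀ m < t, ¬ tooth t m ⊆ T) : ConvexPos T := by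
  intro x hx
  obtain ⟨i, _, rfl⟩ := Finset.mem_image.mp (hT hx)
  have hform : ∀ y ∈ T, ∃ j, pt t j = y := fun y hy => by
    obtain ⟨j, _, rfl⟩ := Finset.mem_image.mp (hT hy)
    exact ⟨j, rfl⟩
  by_cases hi : i % 3 = 1 ∧ i < 3 * t
  · have hki : kk t i = 1 := by unfold kk; rw [if_pos hi]
    have hm := hno (i / 3) (by omega)
    rw [Finset.not_subset] at hm
    obtain ⟨y', hy', hyT⟩ := hm
    obtain ⟨j, hj, rfl⟩ := mem_tooth.mp hy'
    have hji : j ≠ i := by rintro rfl; exact hyT hx
    have hj' : j = i + 1 ∨ j + 1 = i := by omega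
    rcases hj' with rfl | hj'
    · refine extreme_of_line T _ hx (2 * i + 1 / 2) (fun y hy2 hne => ?_)
      obtain ⟨l, rfl⟩ := hform y hy2
      have h1 : l ≠ i := by rintro rfl; exact hne rfl
      have h2 : l ≠ i + 1 := by rintro rfl; exact hyT hy2
      have h3 : (l : ℝ) + 1 ≤ i ∨ (i : ℝ) + 2 ≤ l := by
        rcases (by omega : l + 1 ≤ i ∨ i + 2 ≤ l) with h | h
        · left; exact_mod_cast h
        · right; exact_mod_cast h
      have h4 := kk_nonneg t l
      simp only [pt, hki]
      push_cast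
      rcases h3 with h3 | h3 <;> nlinarith
    · refine extreme_of_line T _ hx (2 * i - 1 / 2) (fun y hy2 hne => ?_)
      obtain ⟨l, rfl⟩ := hform y hy2
      have h1 : l ≠ i := by rintro rfl; exact hne rfl
      have h2 : l ≠ j := by rintro rfl; exact hyT hy2
      have h3 : (l : ℝ) + 2 ≤ i ∨ (i : ℝ) + 1 ≤ l := by
        rcases (by omega : l + 2 ≤ i ∨ i + 1 ≤ l) with h | h
        · left; exact_mod_cast h
        · right; exact_mod_cast h
      have h4 := kk_nonneg t l
      simp only [pt, hki]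
      push_cast
      rcases h3 with h3 | h3 <;> nlinarith
  · have hki : kk t i = 0 := by unfold kk; rw [if_neg hi]
    refine extreme_of_line T _ hx (2 * i) (fun y hy hne => ?_)
    obtain ⟨l, rfl⟩ := hform y hy
    have h1 : l ≠ i := by rintro rfl; exact hne rfl
    have h3 : (l : ℝ) + 1 ≤ i ∨ (i : ℝ) + 1 ≤ l := by
      rcases (by omega : l + 1 ≤ i ∨ i + 1 ≤ l) with h | h
      · left; exact_mod_cast h
      · right; exact_mod_cast h
    have h4 := kk_nonneg t l
    simp only [pt, hki]
    push_cast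
    rcases h3 with h3 | h3 <;> nlinarith

lemma conv3 {A : Set (ℝ × ℝ)} (hA : Convex ℝ A) {a b c : ℝ × ℝ} (ha : a ∈ A) (hb : b ∈ A)
    (hc : c ∈ A) {u v w : ℝ} (hu : 0 ≤ u) (hv : 0 ≤ v) (hw : 0 ≤ w) (h : u + v + w = 1) :
    u • a + v • b + w • c ∈ A := by
  have := hA.sum_mem (t := Finset.univ) (w := ![u, v, w]) (z := ![a, b, c])
    (fun i _ => by fin_cases i <;> simpa) (by rw [Fin.sum_univ_three]; simpa using h)
    (fun i _ => by fin_cases i <;> simpa)
  rw [Fin.sum_univ_three] at this
  simpa using this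

lemma noTooth_of_convex (n t : ℕ) (C : Finset (ℝ × ℝ)) (hC : C ⊆ (Finset.range n).image (pt t))
    (hconv : ConvexPos C) (h4 : 4 ≤ C.card) (m : ℕ) (hm : m < t) : ¬ tooth t m ⊆ C := by
  intro hsub
  obtain ⟨z, hzC, hz⟩ : ∃ z ∈ C, z ∉ tooth t m := by
    by_contra hcon
    push Not at hcon
    have := Finset.card_le_card (show C ⊆ tooth t m from hcon)
    rw [tooth_card] at this
    omega
  obtain ⟨j, _, rfl⟩ := Finset.mem_image.mp (hC hzC)
  have hj : j / 3 ≠ m := fun h => hz (mem_tooth.mpr ⟨j, h, rfl⟩)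
  set i := 3 * m + 1 with hi
  have hki : kk t i = 1 := by unfold kk; rw [if_pos (by omega)]
  have hk0 : kk t (3 * m) = 0 := by unfold kk; rw [if_neg (by omega)]
  have hk2 : kk t (3 * m + 2) = 0 := by unfold kk; rw [if_neg (by omega)]
  have hx : pt t i ∈ C := hsub (mem_tooth.mpr ⟨i, by omega, rfl⟩)
  have ha : pt t (3 * m) ∈ C := hsub (mem_tooth.mpr ⟨3 * m, by omega, rfl⟩)
  have hb : pt t (3 * m + 2) ∈ C := hsub (mem_tooth.mpr ⟨3 * m + 2, by omega, rfl⟩)
  have hext := hconv _ hx
  rw [(convex_convexHull ℝ (C : Set (ℝ × ℝ))).mem_extremePoints_iff_mem_sdiff_convexHull_sdiff]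
    at hext
  refine hext.2 ?_
  have hmem : ∀ l, pt t l ∈ C → l ≠ i → pt t l ∈
      convexHull ℝ (convexHull ℝ (C : Set (ℝ × ℝ)) \ {pt t i}) := by
    intro l hl hli
    refine subset_convexHull ℝ _ ⟨subset_convexHull ℝ _ hl, ?_⟩
    intro h
    exact hli (pt_inj t h)
  have hja : j ≠ i := by omega
  have ea := hmem _ ha (by omega)
  have eb := hmem _ hb (by omega)
  have ej := hmem _ hzC hja
  set d : ℝ := (j : ℝ) - i with hd
  have hir : (i : ℝ) = 3 * m + 1 := by rw [hi]; push_cast; ring
  have hdd : 2 ≤ d ∨ d ≤ -2 := by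
    rcases (by omega : i + 2 ≤ j ∨ j + 2 ≤ i) with h | h
    · left
      have : (i : ℝ) + 2 ≤ j := by exact_mod_cast h
      linarith
    · right
      have : (j : ℝ) + 2 ≤ i := by exact_mod_cast h
      linarith
  set k : ℝ := (kk t j : ℝ) with hk
  have hk0' : 0 ≤ k := kk_nonneg t j
  set E : ℝ := 5 / 4 * k + d ^ 2 - 1 with hE
  have hEpos : 3 ≤ E := by
    rcases hdd with h | h <;> nlinarith
  have hE0 : E ≠ 0 := by linarith
  set w : ℝ := 1 / 4 / E with hw
  have hwE : w * E = 1 / 4 := by rw [hw]; field_simp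
  have hw0 : 0 ≤ w := by rw [hw]; positivity
  have hwd : w * (|d| + 1) ≤ 1 := by
    have h1 : |d| + 1 ≤ E := by
      rcases hdd with h | h
      · rw [abs_of_pos (by linarith)]; nlinarith
      · rw [abs_of_neg (by linarith)]; nlinarith
    have h2 := mul_le_mul_of_nonneg_left h1 hw0
    linarith
  have hd1 : w * d ≤ w * |d| := mul_le_mul_of_nonneg_left (le_abs_self d) hw0
  have hd2 : w * (-d) ≤ w * |d| := mul_le_mul_of_nonneg_left (neg_le_abs d) hw0
  have hkey := conv3 (convex_convexHull ℝ _) ea eb ej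
    (u := 1 / 2 + w * (d - 1) / 2) (v := 1 / 2 - w * (d + 1) / 2) (w := w)
    (by linarith) (by linarith) hw0 (by ring)
  have hjr : (j : ℝ) = i + d := by rw [hd]; ring
  have heq : (1 / 2 + w * (d - 1) / 2) • pt t (3 * m) + (1 / 2 - w * (d + 1) / 2) •
      pt t (3 * m + 2) + w • pt t j = pt t i := by
    have e0 : ((3 * m : ℕ) : ℝ) = i - 1 := by rw [hir]; push_cast; ring
    have e2 : ((3 * m + 2 : ℕ) : ℝ) = i + 1 := by rw [hir]; push_cast; ring
    unfold pt
    rw [hk0, hk2, hki, e0, e2, hjr]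
    refine Prod.ext ?_ ?_
    · simp only [Prod.fst_add, Prod.smul_fst, smul_eq_mul]
      ring
    · simp only [Prod.snd_add, Prod.smul_snd, smul_eq_mul]
      rw [← hk]
      push_cast
      linear_combination hwE
  rw [heq] at hkey
  exact hkey

end TEE_

open TEE_ in
/-- TEE -/
theorem tTEE : T_TEE := by
  intro n t hnt
  have hScard : ((Finset.range n).image (pt t)).card = n := by
    rw [Finset.card_image_of_injective _ (pt_inj t), Finset.card_range]
  refine ⟨(Finset.range n).image (pt t), hScard, ?_, ?_, (Finset.range t).image (tooth t), ?_, ?_,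
    ?_, ?_⟩
  · intro a ha b hb c hc hab hac hbc
    obtain ⟨x, _, rfl⟩ := Finset.mem_image.mp ha
    obtain ⟨y, _, rfl⟩ := Finset.mem_image.mp hb
    obtain ⟨z, _, rfl⟩ := Finset.mem_image.mp hc
    exact pt_gen t x y z (by rintro rfl; exact hab rfl) (by rintro rfl; exact hac rfl)
      (by rintro rfl; exact hbc rfl)
  · intro C hC hconv h4
    have hno : ∀ m : ℕ, ∃ y, m < t → y ∈ tooth t m ∧ y ∉ C := by
      intro m
      by_cases hm : m < t
      · obtain ⟨y, hy⟩ := Finset.not_subset.mp (noTooth_of_convex n t C hC hconv h4 m hm)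
        exact ⟨y, fun _ => hy⟩
      · exact ⟨0, fun h => absurd h hm⟩
    choose g hg using hno
    have hinj : Set.InjOn g (Finset.range t : Set ℕ) := by
      intro m hm m' hm' hgg
      by_contra hne
      have h1 := (hg m (by simpa using hm)).1
      have h2 := (hg m' (by simpa using hm')).1
      rw [← hgg] at h2
      exact Finset.disjoint_left.mp (tooth_disj hne) h1 h2
    have hsub : (Finset.range t).image g ⊆ (Finset.range n).image (pt t) \ C := by
      intro y hy
      obtain ⟨m, hm, rfl⟩ := Finset.mem_image.mp hy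
      have hm' : m < t := by simpa using hm
      obtain ⟨i, hi, hi2⟩ := mem_tooth.mp (hg m hm').1
      rw [Finset.mem_sdiff]
      refine ⟨Finset.mem_image.mpr ⟨i, ?_, hi2⟩, (hg m hm').2⟩
      rw [Finset.mem_range]
      omega
    have h5 := Finset.card_le_card hsub
    rw [Finset.card_image_of_injOn hinj, Finset.card_range, Finset.card_sdiff_of_subset hC,
      hScard] at h5
    have h6 := Finset.card_le_card hC
    rw [hScard] at h6
    omega
  · rw [Finset.card_image_of_injective, Finset.card_range]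
    intro m m' h
    by_contra hne
    have h1 : pt t (3 * m) ∈ tooth t m := mem_tooth.mpr ⟨3 * m, by omega, rfl⟩
    have h2 : pt t (3 * m) ∈ tooth t m' := by rw [← h]; exact h1
    exact Finset.disjoint_left.mp (tooth_disj hne) h1 h2
  · intro e he
    obtain ⟨m, hm, rfl⟩ := Finset.mem_image.mp he
    refine ⟨fun y hy => ?_, tooth_card t m⟩
    obtain ⟨i, hi, rfl⟩ := mem_tooth.mp hy
    have hm' : m < t := by simpa using hm
    exact Finset.mem_image.mpr ⟨i, by rw [Finset.mem_range]; omega, rfl⟩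
  · intro e he e' he' hne
    obtain ⟨m, _, rfl⟩ := Finset.mem_image.mp he
    obtain ⟨m', _, rfl⟩ := Finset.mem_image.mp he'
    exact tooth_disj (by rintro rfl; exact hne rfl)
  · intro T hT hno
    refine convex_of_noTooth n t T hT (fun m hm => hno _ ?_)
    exact Finset.mem_image.mpr ⟨m, by simpa using hm, rfl⟩

end Pool.Agent.SBC
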