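import Pool.Agent.SBC.Targets

set_option autoImplicit false

/-!
# TRA: from independent sampling to `s`-subsets, for decreasing properties
-/

namespace Pool.Agent.SBC

open Filter Topology

namespace TRA_

/-- binomial probabilities -/
noncomputable def P (n : ℕ) (q : ℝ) (k : ℕ) : ℝ := (n.choose k : ℝ) * q ^ k * (1 - q) ^ (n - k)

theorem P_nonneg {n : ℕ} {q : ℝ} (h0 : 0 ≤ q) (h1 : q ≤ 1) (k : ℕ) : 0 ≤ P n q k := by
  have : 0 ≤ 1 - q := by linarith
  unfold P
  positivity

theorem eval_bern (n : ℕ) (q : ℝ) (k : ℕ) :
    (bernsteinPolynomial ℝ n k).eval q = P n q k := by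
  simp [bernsteinPolynomial, P]

theorem sum_P (n : ℕ) (q : ℝ) : ∑ k ∈ Finset.range (n + 1), P n q k = 1 := by
  have h := congrArg (Polynomial.eval q) (bernsteinPolynomial.sum ℝ n)
  rw [Polynomial.eval_finset_sum, Polynomial.eval_one] at h
  simpa only [eval_bern] using h

theorem var_P (n : ℕ) (q : ℝ) :
    ∑ k ∈ Finset.range (n + 1), (n * q - k) ^ 2 * P n q k = n * q * (1 - q) := by
  have h := congrArg (Polynomial.eval q) (bernsteinPolynomial.variance ℝ n)
  rw [Polynomial.eval_finset_sum] at h
  simpa [eval_bern] using h

section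

open scoped Classical

variable {α : Type}

/-- the number of the `k`-subsets with the property -/
noncomputable def N (S : Finset α) (F : Finset α → Prop) (k : ℕ) : ℕ :=
  ((S.powersetCard k).filter F).card

theorem prob_eq (S : Finset α) (F : Finset α → Prop) (k : ℕ) :
    prob S k F = N S F k / (S.card.choose k : ℝ) := by
  rw [prob, N, Finset.card_powersetCard]

theorem N_step (S : Finset α) (F : Finset α → Prop)
    (hF : ∀ T T' : Finset α, T' ⊆ T → F T → F T') (k : ℕ) (hk : k + 1 ≤ S.card) :
    N S F (k + 1) * (k + 1) ≤ N S F k * (S.card - k) := by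
  unfold N
  refine Finset.card_mul_le_card_mul (fun (T T' : Finset α) => T' ⊆ T) (fun T hT => ?_)
    fun T' hT' => ?_
  · rw [Finset.mem_filter, Finset.mem_powersetCard] at hT
    have h1 : T.powersetCard k ⊆ Finset.bipartiteAbove (fun (T T' : Finset α) => T' ⊆ T)
        ((S.powersetCard k).filter F) T := by
      intro T' hT'
      rw [Finset.mem_powersetCard] at hT'
      rw [Finset.mem_bipartiteAbove, Finset.mem_filter, Finset.mem_powersetCard]
      exact ⟨⟨⟨hT'.1.trans hT.1.1, hT'.2⟩, hF T T' hT'.1 hT.2⟩, hT'.1⟩
    refine le_trans ?_ (Finset.card_le_card h1)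
    rw [Finset.card_powersetCard, hT.1.2, Nat.choose_succ_self_right]
  · rw [Finset.mem_filter, Finset.mem_powersetCard] at hT'
    have h1 : Finset.bipartiteBelow (fun (T T' : Finset α) => T' ⊆ T)
        ((S.powersetCard (k + 1)).filter F) T' ⊆
        (S \ T').image fun x => insert x T' := by
      intro T hT
      rw [Finset.mem_bipartiteBelow, Finset.mem_filter, Finset.mem_powersetCard] at hT
      obtain ⟨⟨⟨h2, h3⟩, -⟩, h4⟩ := hT
      have h5 : (T \ T').card = 1 := by
        rw [Finset.card_sdiff_of_subset h4, h3, hT'.1.2]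
        omega
      obtain ⟨x, hx⟩ := Finset.card_eq_one.1 h5
      have hxm : x ∈ T \ T' := by rw [hx]; exact Finset.mem_singleton_self x
      rw [Finset.mem_sdiff] at hxm
      rw [Finset.mem_image]
      refine ⟨x, Finset.mem_sdiff.2 ⟨h2 hxm.1, hxm.2⟩, ?_⟩
      rw [Finset.insert_eq, ← hx, Finset.sdiff_union_of_subset h4]
    refine (Finset.card_le_card h1).trans (Finset.card_image_le.trans ?_)
    rw [Finset.card_sdiff_of_subset hT'.1.1, hT'.1.2]

theorem prob_step (S : Finset α) (F : Finset α → Prop)
    (hF : ∀ T T' : Finset α, T' ⊆ T → F T → F T') (k : ℕ) (hk : k + 1 ≤ S.card) :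
    prob S (k + 1) F ≤ prob S k F := by
  rw [prob_eq, prob_eq]
  have h1 := N_step S F hF k hk
  have h2 : S.card.choose (k + 1) * (k + 1) = S.card.choose k * (S.card - k) :=
    Nat.choose_succ_right_eq _ _
  have hc1 : 0 < S.card.choose (k + 1) := Nat.choose_pos hk
  have hc0 : 0 < S.card.choose k := Nat.choose_pos (by omega)
  rw [div_le_div_iff₀ (by exact_mod_cast hc1) (by exact_mod_cast hc0)]
  have h3 : N S F (k + 1) * S.card.choose k ≤ N S F k * S.card.choose (k + 1) := by
    have h4 : N S F (k + 1) * S.card.choose k * (k + 1) * (S.card - k) ≤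
        N S F k * S.card.choose (k + 1) * (k + 1) * (S.card - k) := by
      calc N S F (k + 1) * S.card.choose k * (k + 1) * (S.card - k)
          = (N S F (k + 1) * (k + 1)) * (S.card.choose k * (S.card - k)) := by ring
        _ ≤ (N S F k * (S.card - k)) * (S.card.choose k * (S.card - k)) :=
            Nat.mul_le_mul_right _ h1
        _ = (N S F k * (S.card - k)) * (S.card.choose (k + 1) * (k + 1)) := by rw [h2]
        _ = _ := by ring
    have h5 : 0 < S.card - k := by omega
    exact Nat.le_of_mul_le_mul_right (Nat.le_of_mul_le_mul_right h4 h5) (Nat.succ_pos k)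
  exact_mod_cast h3

theorem prob_mono (S : Finset α) (F : Finset α → Prop)
    (hF : ∀ T T' : Finset α, T' ⊆ T → F T → F T') (s : ℕ) (hs : s ≤ S.card) :
    ∀ s' ≤ s, prob S s F ≤ prob S s' F := by
  induction s with
  | zero =>
    intro s' hs'
    rw [Nat.le_zero.1 hs']
  | succ k ih =>
    intro s' hs'
    rcases Nat.lt_or_ge s' (k + 1) with h | h
    · exact (prob_step S F hF k hs).trans (ih (by omega) s' (by omega))
    · rw [le_antisymm hs' h]

theorem prob_nonneg (S : Finset α) (F : Finset α → Prop) (k : ℕ) : 0 ≤ prob S k F := by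
  unfold prob
  positivity

theorem prob_le_one (S : Finset α) (F : Finset α → Prop) (k : ℕ) : prob S k F ≤ 1 := by
  unfold prob
  refine div_le_one_of_le₀ ?_ (by positivity)
  exact_mod_cast Finset.card_filter_le _ _

theorem pr_eq (S : Finset α) (F : Finset α → Prop) (q : ℝ) :
    pr q S F = ∑ k ∈ Finset.range (S.card + 1), P S.card q k * prob S k F := by
  unfold pr
  rw [← Finset.sum_fiberwise_of_maps_to (s := S.powerset.filter F)
    (t := Finset.range (S.card + 1)) (g := fun T => T.card) (fun T hT => ?_)]
  · refine Finset.sum_congr rfl fun k hk => ?_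
    have hk' : k ≤ S.card := by
      rw [Finset.mem_range] at hk
      omega
    have h1 : (S.powerset.filter F).filter (fun T => T.card = k) =
        (S.powersetCard k).filter F := by
      ext T
      simp only [Finset.mem_filter, Finset.mem_powerset, Finset.mem_powersetCard]
      tauto
    rw [h1]
    have h2 : ∑ T ∈ (S.powersetCard k).filter F, q ^ T.card * (1 - q) ^ (S.card - T.card) =
        ∑ T ∈ (S.powersetCard k).filter F, q ^ k * (1 - q) ^ (S.card - k) := by
      refine Finset.sum_congr rfl fun T hT => ?_
      rw [Finset.mem_filter, Finset.mem_powersetCard] at hT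
      rw [hT.1.2]
    rw [h2, Finset.sum_const, nsmul_eq_mul, prob_eq, P, N]
    have hc0 : (S.card.choose k : ℝ) ≠ 0 := by
      exact_mod_cast (Nat.choose_pos hk').ne'
    field_simp
  · rw [Finset.mem_filter, Finset.mem_powerset] at hT
    rw [Finset.mem_range]
    have := Finset.card_le_card hT.1
    omega

end

end TRA_

open TRA_

theorem tTRA : T_TRA := by
  classical
  intro S F hF s q hs h0 h1
  set n := S.card with hn
  have hmono := fun k hk => prob_mono S F hF k hk
  refine ⟨hmono s hs, fun hlt => ?_, fun hlt => ?_⟩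
  · -- lower bound for the independent model
    rw [pr_eq]
    set r := Finset.range (S.card + 1) with hr
    set v : ℝ := (s - S.card * q) ^ 2 with hv
    have hv0 : 0 < v := by
      have : 0 < s - S.card * q := by
        have := hlt
        rw [hn] at this
        linarith
      positivity
    -- tail
    have htail : ∑ k ∈ r.filter (fun k => ¬ k ≤ s), P S.card q k ≤ S.card * q * (1 - q) / v := by
      rw [le_div_iff₀ hv0, ← var_P, Finset.sum_mul]
      calc ∑ k ∈ r.filter (fun k => ¬ k ≤ s), P S.card q k * v
          ≤ ∑ k ∈ r.filter (fun k => ¬ k ≤ s), (S.card * q - k) ^ 2 * P S.card q k := by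
            refine Finset.sum_le_sum fun k hk => ?_
            rw [Finset.mem_filter] at hk
            have hks : (s : ℝ) ≤ k := by
              have : s ≤ k := by omega
              exact_mod_cast this
            have h3 : v ≤ (S.card * q - k) ^ 2 := by
              rw [hv]
              nlinarith
            rw [mul_comm]
            exact mul_le_mul_of_nonneg_right h3 (P_nonneg h0 h1 k)
        _ ≤ _ := Finset.sum_le_sum_of_subset_of_nonneg (Finset.filter_subset _ _)
            fun k _ _ => mul_nonneg (sq_nonneg _) (P_nonneg h0 h1 k)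
    have hsplit := Finset.sum_filter_add_sum_filter_not r (fun k => k ≤ s) (P S.card q)
    rw [sum_P] at hsplit
    have h2 : ∑ k ∈ r.filter (fun k => k ≤ s), P S.card q k * prob S k F ≤
        ∑ k ∈ r, P S.card q k * prob S k F :=
      Finset.sum_le_sum_of_subset_of_nonneg (Finset.filter_subset _ _)
        fun k _ _ => mul_nonneg (P_nonneg h0 h1 k) (prob_nonneg S F k)
    have h3 : (∑ k ∈ r.filter (fun k => k ≤ s), P S.card q k) * prob S s F ≤
        ∑ k ∈ r.filter (fun k => k ≤ s), P S.card q k * prob S k F := by
      rw [Finset.sum_mul]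
      refine Finset.sum_le_sum fun k hk => ?_
      rw [Finset.mem_filter] at hk
      exact mul_le_mul_of_nonneg_left (hmono s hs k hk.2) (P_nonneg h0 h1 k)
    refine le_trans ?_ (h3.trans h2)
    rw [mul_comm]
    refine mul_le_mul_of_nonneg_right ?_ (prob_nonneg S F s)
    linarith
  · -- upper bound
    rw [pr_eq]
    set r := Finset.range (S.card + 1) with hr
    set v : ℝ := (S.card * q - s) ^ 2 with hv
    have hv1 : 0 < S.card * q - s := by linarith
    have hv0 : 0 < v := by positivity
    have htail : ∑ k ∈ r.filter (fun k => ¬ s ≤ k), P S.card q k ≤ S.card * q * (1 - q) / v := by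
      rw [le_div_iff₀ hv0, ← var_P, Finset.sum_mul]
      calc ∑ k ∈ r.filter (fun k => ¬ s ≤ k), P S.card q k * v
          ≤ ∑ k ∈ r.filter (fun k => ¬ s ≤ k), (S.card * q - k) ^ 2 * P S.card q k := by
            refine Finset.sum_le_sum fun k hk => ?_
            rw [Finset.mem_filter] at hk
            have hks : (k : ℝ) ≤ s := by
              have : k ≤ s := by omega
              exact_mod_cast this
            have h3 : v ≤ (S.card * q - k) ^ 2 := by
              rw [hv]
              nlinarith
            rw [mul_comm]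
            exact mul_le_mul_of_nonneg_right h3 (P_nonneg h0 h1 k)
        _ ≤ _ := Finset.sum_le_sum_of_subset_of_nonneg (Finset.filter_subset _ _)
            fun k _ _ => mul_nonneg (sq_nonneg _) (P_nonneg h0 h1 k)
    rw [← Finset.sum_filter_add_sum_filter_not r (fun k => s ≤ k)]
    have h2 : ∑ k ∈ r.filter (fun k => ¬ s ≤ k), P S.card q k * prob S k F ≤
        ∑ k ∈ r.filter (fun k => ¬ s ≤ k), P S.card q k := by
      refine Finset.sum_le_sum fun k _ => ?_
      exact mul_le_of_le_one_right (P_nonneg h0 h1 k) (prob_le_one S F k)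
    have h3 : ∑ k ∈ r.filter (fun k => s ≤ k), P S.card q k * prob S k F ≤ prob S s F := by
      calc ∑ k ∈ r.filter (fun k => s ≤ k), P S.card q k * prob S k F
          ≤ ∑ k ∈ r.filter (fun k => s ≤ k), P S.card q k * prob S s F := by
            refine Finset.sum_le_sum fun k hk => ?_
            rw [Finset.mem_filter, hr, Finset.mem_range] at hk
            exact mul_le_mul_of_nonneg_left (hmono k (by omega) s hk.2) (P_nonneg h0 h1 k)
        _ = (∑ k ∈ r.filter (fun k => s ≤ k), P S.card q k) * prob S s F := by
            rw [Finset.sum_mul]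
        _ ≤ 1 * prob S s F := by
            refine mul_le_mul_of_nonneg_right ?_ (prob_nonneg S F s)
            rw [← sum_P S.card q]
            exact Finset.sum_le_sum_of_subset_of_nonneg (Finset.filter_subset _ _)
              fun k _ _ => P_nonneg h0 h1 k
        _ = prob S s F := one_mul _
    linarith

end Pool.Agent.SBC
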