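import Pool.Agent.SBC.LOW

set_option autoImplicit false

/-!
# The upper bound
-/

namespace Pool.Agent.SBC

open Filter Topology

namespace UPP_

/-- `n exp (-κ n^(2/3)) → 0` -/
theorem exp_small {κ : ℝ} (hκ : 0 < κ) :
    Tendsto (fun n : ℕ => (n : ℝ) * Real.exp (-(κ * (n : ℝ) ^ (2 / 3 : ℝ)))) atTop (𝓝 0) := by
  have h1 : Tendsto (fun x : ℝ => x ^ 2 * Real.exp (-(κ * x))) atTop (𝓝 0) := by
    have := Real.tendsto_pow_mul_exp_neg_atTop_nhds_zero 2
    have h2 : Tendsto (fun x : ℝ => κ * x) atTop atTop := tendsto_id.const_mul_atTop hκ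
    have h3 := (this.comp h2).const_mul ((κ ^ 2)⁻¹)
    rw [mul_zero] at h3
    refine h3.congr fun x => ?_
    simp only [Function.comp]
    rw [mul_pow]
    field_simp
  have h2 := h1.comp tendsto_pow23
  refine squeeze_zero' (Eventually.of_forall fun n => by positivity) ?_ h2
  filter_upwards [eventually_ge_atTop 1] with n hn
  have hn' : (1 : ℝ) ≤ n := by exact_mod_cast hn
  simp only [Function.comp]
  apply mul_le_mul_of_nonneg_right _ (Real.exp_pos _).le
  rw [← Real.rpow_natCast, ← Real.rpow_mul (by linarith)]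
  calc (n : ℝ) = (n : ℝ) ^ (1 : ℝ) := (Real.rpow_one _).symm
    _ ≤ (n : ℝ) ^ ((2 / 3 : ℝ) * ((2 : ℕ) : ℝ)) := by
        apply Real.rpow_le_rpow_of_exponent_le hn'
        norm_num

/-- number of edges from the degrees -/
theorem card_le {S : Finset (ℝ × ℝ)} {W : Finset (Finset (ℝ × ℝ))} {D : ℕ}
    (h1 : ∀ e ∈ W, e ⊆ S ∧ e.card = 3) (h2 : ∀ v, (W.filter fun e => v ∈ e).card ≤ D) :
    W.card ≤ S.card * D := by
  classical
  have h3 : W ⊆ S.biUnion fun v => W.filter fun e => v ∈ e := by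
    intro e he
    obtain ⟨h4, h5⟩ := h1 e he
    obtain ⟨v, hv⟩ : e.Nonempty := Finset.card_pos.1 (by omega)
    exact Finset.mem_biUnion.2 ⟨v, h4 hv, Finset.mem_filter.2 ⟨he, hv⟩⟩
  calc W.card ≤ _ := Finset.card_le_card h3
    _ ≤ S.card * D := Finset.card_biUnion_le_card_mul _ _ _ fun v _ => h2 v

end UPP_

open LOW_ UPP_ in
theorem tUPP (hP : T_PRB) (hJ : T_JAN) (hT : T_TRA) (hG : T_GEO) : T_UPP := by
  intro ε p c h1 h2 h3 h4 hc hc0
  have hΛ : 0 < Real.log (1 / p) := Real.log_pos (by rw [lt_div_iff₀ h3]; linarith)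
  have hc' : Real.log (1 / p) < ε * c ^ 3 := by
    rw [div_lt_iff₀ h1] at hc
    linarith
  -- choice of `δ`
  obtain ⟨δ, hδ, hδ1, hδ2⟩ : ∃ δ : ℝ, 0 < δ ∧ δ < 1 ∧
      Real.log (1 / p) < ε * (c * (1 - δ)) ^ 3 := by
    have hcont : Tendsto (fun δ : ℝ => ε * (c * (1 - δ)) ^ 3) (𝓝[>] 0) (𝓝 (ε * (c * (1 - 0)) ^ 3)) := by
      refine Tendsto.mono_left ?_ nhdsWithin_le_nhds
      exact (Continuous.tendsto (by fun_prop) 0)
    have h5 : Real.log (1 / p) < ε * (c * (1 - 0)) ^ 3 := by simpa using hc'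
    have h6 := hcont.eventually (lt_mem_nhds h5)
    have h7 : ∀ᶠ δ : ℝ in 𝓝[>] 0, δ < 1 :=
      nhdsWithin_le_nhds (gt_mem_nhds (by norm_num))
    obtain ⟨δ, ⟨h8, h9⟩, h10⟩ := ((h6.and h7).and self_mem_nhdsWithin).exists
    exact ⟨δ, h10, h9, h8⟩
  set κ : ℝ := c * (1 - δ) with hκ
  have hκ0 : 0 < κ := mul_pos hc0 (by linarith)
  -- choice of `D`
  obtain ⟨D, hD1, hD⟩ : ∃ D : ℕ, 1 ≤ D ∧
      Real.log (1 / p) < ε * κ ^ 3 / (1 + 3 / (D : ℝ)) := by
    have hcont : Tendsto (fun D : ℕ => ε * κ ^ 3 / (1 + 3 / (D : ℝ))) atTop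
        (𝓝 (ε * κ ^ 3 / (1 + 0))) := by
      refine Tendsto.div tendsto_const_nhds (tendsto_const_nhds.add ?_) (by norm_num)
      exact tendsto_const_div_atTop_nhds_zero_nat 3
    have h5 : Real.log (1 / p) < ε * κ ^ 3 / (1 + 0) := by simpa using hδ2
    obtain ⟨D, h6, h7⟩ := ((hcont.eventually (lt_mem_nhds h5)).and (eventually_ge_atTop 1)).exists
    exact ⟨D, h7, h6⟩
  set A : ℝ := ε * κ ^ 3 / (1 + 3 / (D : ℝ)) with hA
  have hD0 : (0 : ℝ) < D := by exact_mod_cast hD1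
  have h1D : 0 < 1 + 3 / (D : ℝ) := by positivity
  have hA0 : 0 < A := by positivity
  set a : ℕ → ℝ := fun n => (n : ℝ) ^ (-(1 / 3) : ℝ) with ha
  have ha0 : Tendsto a atTop (𝓝 0) := neg13
  have hq0 : Tendsto (fun n => κ * a n) atTop (𝓝 0) := by simpa using ha0.const_mul κ
  set β : ℕ → ℝ := fun n => κ / (c * δ) ^ 2 * (n : ℝ) ^ (-(2 / 3) : ℝ) with hβ
  have hβ0 : Tendsto β atTop (𝓝 0) := by simpa using neg23.const_mul (κ / (c * δ) ^ 2)
  set f : ℕ → ℝ := fun n => Real.exp (-(A * (1 - 3 * D * (κ * a n)))) +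
    D * ((n : ℝ) * Real.exp (-(κ / 4 * (n : ℝ) ^ (2 / 3 : ℝ)))) with hf
  have hflim : Tendsto f atTop (𝓝 (Real.exp (-A))) := by
    have t1 : Tendsto (fun n : ℕ => A * (1 - 3 * D * (κ * a n))) atTop
        (𝓝 (A * (1 - 3 * D * 0))) :=
      (tendsto_const_nhds.sub (hq0.const_mul _)).const_mul _
    have t2 := (exp_small (show 0 < κ / 4 by positivity)).const_mul (D : ℝ)
    have t3 := ((Real.continuous_exp.tendsto _).comp t1.neg).add t2
    simp only [mul_zero, sub_zero, add_zero, mul_one] at t3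
    exact t3
  have hglim : Tendsto (fun n => p * (1 - β n)) atTop (𝓝 (p * (1 - 0))) :=
    (tendsto_const_nhds.sub hβ0).const_mul _
  have hlim : Real.exp (-A) < p * (1 - 0) := by
    have : Real.exp (-A) < Real.exp (-(Real.log (1 / p))) :=
      Real.exp_lt_exp.2 (neg_lt_neg hD)
    rw [Real.exp_neg (Real.log _), Real.exp_log (by positivity), one_div, inv_inv] at this
    simpa using this
  have e1 : ∀ᶠ n : ℕ in atTop, f n < p * (1 - β n) := hflim.eventually_lt hglim hlim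
  have e2 : ∀ᶠ n : ℕ in atTop, κ * a n < 1 := hq0.eventually (gt_mem_nhds (by norm_num))
  have e2' : ∀ᶠ n : ℕ in atTop, κ * a n < 1 / (3 * D) :=
    hq0.eventually (gt_mem_nhds (by positivity))
  have e3 : ∀ᶠ n : ℕ in atTop, β n < 1 := hβ0.eventually (gt_mem_nhds (by norm_num))
  filter_upwards [e1, e2, e3, e2', eventually_ge_atTop 16] with n g1 g2 g3 g4 g5
  have hn : 0 < n := by omega
  have hnR : (0 : ℝ) < n := by exact_mod_cast hn
  intro s hs hsn S s1 s2 s3
  set m : ℝ := (n : ℝ) ^ (2 / 3 : ℝ) with hm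
  have hm0 : 0 < m := Real.rpow_pos_of_pos hnR _
  have hq1 : 0 ≤ κ * a n := mul_nonneg hκ0.le (Real.rpow_nonneg hnR.le _)
  have hnq : (S.card : ℝ) * (κ * a n) = κ * m := by
    rw [s1, hm, ← mul13 hn, ha]
    ring
  obtain ⟨W, w1, w2, w3, w4⟩ := hG S ε D s2 s3 (by omega) hD1
  obtain ⟨P1, P2, P3, P4, P5, -⟩ := hP S (κ * a n) hq1 g2.le
  -- the estimate for independent sampling
  have b1 : pr (κ * a n) S ConvexPos ≤ f n := by
    choose! Q q1 q2 q3 using w4
    have b2 : pr (κ * a n) S ConvexPos ≤ pr (κ * a n) S (fun T => (∀ e ∈ W, ¬ e ⊆ T) ∨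
        ∃ e ∈ W, Disjoint T (Q e)) := by
      refine P2 _ _ fun T hTS hTc => ?_
      by_cases hex : ∃ e ∈ W, e ⊆ T
      · obtain ⟨e, he, heT⟩ := hex
        exact Or.inr ⟨e, he, q3 e he T hTS hTc heT⟩
      · push Not at hex
        exact Or.inl hex
    have b3 := P3 (fun T => ∀ e ∈ W, ¬ e ⊆ T) (fun T => ∃ e ∈ W, Disjoint T (Q e))
    have b4 := P4 W (fun e T => Disjoint T (Q e))
    have b5 := hJ S W D (κ * a n) hq1 g2.le w1 w2
    have b6 : Real.exp (-(W.card * (κ * a n) ^ 3 * (1 - 3 * D * (κ * a n)))) ≤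
        Real.exp (-(A * (1 - 3 * D * (κ * a n)))) := by
      apply Real.exp_le_exp.2
      apply neg_le_neg
      have c1 : 0 ≤ 1 - 3 * D * (κ * a n) := by
        have c2 : 3 * D * (κ * a n) ≤ 3 * D * (1 / (3 * D)) :=
          mul_le_mul_of_nonneg_left g4.le (by positivity)
        have c3 : 3 * (D : ℝ) * (1 / (3 * D)) = 1 := by field_simp
        linarith
      apply mul_le_mul_of_nonneg_right _ c1
      rw [mul_pow, ha]
      simp only
      rw [cube13 hn, hA, div_le_iff₀ h1D]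
      rw [s1] at w3
      have c4 : ε * n * (κ ^ 3 * (n : ℝ)⁻¹) ≤ W.card * (1 + 3 / D) * (κ ^ 3 * (n : ℝ)⁻¹) :=
        mul_le_mul_of_nonneg_right w3 (by positivity)
      calc ε * κ ^ 3 = ε * n * (κ ^ 3 * (n : ℝ)⁻¹) := by field_simp
        _ ≤ _ := c4
        _ = _ := by ring
    have b7 : ∀ e ∈ W, pr (κ * a n) S (fun T => Disjoint T (Q e)) ≤
        Real.exp (-(κ / 4 * m)) := by
      intro e he
      rw [P5 (Q e) (q1 e he)]
      have c1 : (1 - κ * a n) ^ (Q e).card ≤ (Real.exp (-(κ * a n))) ^ (Q e).card :=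
        pow_le_pow_left₀ (by linarith) (by
          have := Real.add_one_le_exp (-(κ * a n))
          linarith) _
      refine c1.trans ?_
      rw [← Real.exp_nat_mul]
      apply Real.exp_le_exp.2
      have c2 : (n : ℝ) ≤ 4 * (Q e).card := by
        have := q2 e he
        rw [s1] at this
        exact_mod_cast this
      have c3 : (n : ℝ) * (κ * a n) = κ * m := by rw [← hnq, s1]
      have c4 : (n : ℝ) * (κ * a n) ≤ 4 * (Q e).card * (κ * a n) :=
        mul_le_mul_of_nonneg_right c2 hq1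
      rw [c3] at c4
      linarith
    have b8 : ∑ e ∈ W, pr (κ * a n) S (fun T => Disjoint T (Q e)) ≤
        D * ((n : ℝ) * Real.exp (-(κ / 4 * m))) := by
      calc ∑ e ∈ W, pr (κ * a n) S (fun T => Disjoint T (Q e)) ≤
            ∑ _e ∈ W, Real.exp (-(κ / 4 * m)) := Finset.sum_le_sum b7
        _ = W.card * Real.exp (-(κ / 4 * m)) := by rw [Finset.sum_const, nsmul_eq_mul]
        _ ≤ (n * D : ℕ) * Real.exp (-(κ / 4 * m)) := by
            apply mul_le_mul_of_nonneg_right _ (Real.exp_pos _).le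
            have := card_le w1 w2
            rw [s1] at this
            exact_mod_cast this
        _ = _ := by push_cast; ring
    calc pr (κ * a n) S ConvexPos ≤ _ := b2
      _ ≤ _ := b3
      _ ≤ Real.exp (-(A * (1 - 3 * D * (κ * a n)))) +
          D * ((n : ℝ) * Real.exp (-(κ / 4 * m))) := add_le_add (b5.trans b6) (b4.trans b8)
      _ = f n := rfl
  -- from independent sampling to subsets
  obtain ⟨-, T2, -⟩ := hT S ConvexPos (fun T T' h => tSUB T T' h) s (κ * a n) (by rw [s1]; exact hsn)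
    hq1 g2.le
  have hκc : (s : ℝ) - κ * m ≥ c * δ * m := by
    rw [hκ]
    linarith
  have hpos : 0 < c * δ * m := by positivity
  have hlt : (S.card : ℝ) * (κ * a n) < s := by
    rw [hnq]
    linarith
  have T2' := T2 hlt
  have h11 : (S.card : ℝ) * (κ * a n) * (1 - κ * a n) / (s - S.card * (κ * a n)) ^ 2 ≤ β n := by
    rw [hnq]
    have h12 : κ * m * (1 - κ * a n) ≤ κ * m :=
      mul_le_of_le_one_right (by positivity) (by linarith)
    have h13 : (c * δ * m) ^ 2 ≤ (s - κ * m) ^ 2 :=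
      pow_le_pow_left₀ (by positivity) hκc 2
    calc κ * m * (1 - κ * a n) / (s - κ * m) ^ 2 ≤ κ * m / (c * δ * m) ^ 2 :=
          div_le_div₀ (by positivity) h12 (by positivity) h13
      _ = κ / (c * δ) ^ 2 * m⁻¹ := by field_simp
      _ = β n := by
          change _ = κ / (c * δ) ^ 2 * (n : ℝ) ^ (-(2 / 3) : ℝ)
          rw [hm, Real.rpow_neg hnR.le]
  have hprob0 : 0 ≤ prob S s ConvexPos := by
    unfold prob
    positivity
  have h14 : prob S s ConvexPos * (1 - β n) ≤ p * (1 - β n) := by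
    calc prob S s ConvexPos * (1 - β n) ≤ _ :=
          mul_le_mul_of_nonneg_left (sub_le_sub_left h11 1) hprob0
      _ ≤ _ := T2'
      _ ≤ f n := b1
      _ ≤ p * (1 - β n) := g1.le
  exact le_of_mul_le_mul_right h14 (by linarith)

end Pool.Agent.SBC
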