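import Mathlib

set_option autoImplicit false

/-!
# Sample-based testing of planar convexity: definitions
-/

namespace Pool.Agent.SBC

/-- General position: no three points on a line. -/
def GenPos (S : Finset (ℝ × ℝ)) : Prop :=
  ∀ a ∈ S, ∀ b ∈ S, ∀ c ∈ S, a ≠ b → a ≠ c → b ≠ c → ¬ Collinear ℝ {a, b, c}

/-- Convex configurations: every point is a vertex (an extreme point) of the convex hull. -/
def ConvexPos (S : Finset (ℝ × ℝ)) : Prop :=
  ∀ x ∈ S, x ∈ (convexHull ℝ (S : Set (ℝ × ℝ))).extremePoints ℝ

/-- `ε`-far from convex: every convex subset has at most `(1 - ε) |S|` points. -/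
def Far (ε : ℝ) (S : Finset (ℝ × ℝ)) : Prop :=
  ∀ C ⊆ S, ConvexPos C → (C.card : ℝ) ≤ (1 - ε) * S.card

open scoped Classical in
/-- The probability that a uniformly random `s`-element subset of `S` has the property `F`. -/
noncomputable def prob {α : Type} (S : Finset α) (s : ℕ) (F : Finset α → Prop) : ℝ :=
  ((S.powersetCard s).filter F).card / ((S.powersetCard s).card : ℝ)

/-- The probability that the tester with sample size `s` accepts `S`. -/
noncomputable def accept (S : Finset (ℝ × ℝ)) (s : ℕ) : ℝ := prob S s ConvexPos

/-- The least sample size for which every configuration of `n` points in general position that is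
`ε`-far from convex is accepted with probability at most `p`. -/
noncomputable def sampleSize (ε p : ℝ) (n : ℕ) : ℕ :=
  sInf {s : ℕ | ∀ S : Finset (ℝ × ℝ), S.card = n → GenPos S → Far ε S → accept S s ≤ p}

end Pool.Agent.SBC
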