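import Pool.Agent.SBC.Targets

set_option autoImplicit false

/-!
# Subsets of convex configurations; the limit from the two bounds
-/

namespace Pool.Agent.SBC

open Filter Topology

theorem tSUB : T_SUB := by
  intro T T' h hT x hx
  exact inter_extremePoints_subset_extremePoints_of_subset
    (convexHull_mono (Finset.coe_subset.2 h)) ⟨subset_convexHull ℝ _ hx, hT x (h hx)⟩

theorem tendsto_pow23 : Tendsto (fun n : ℕ => (n : ℝ) ^ (2 / 3 : ℝ)) atTop atTop :=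
  (tendsto_rpow_atTop (by norm_num)).comp tendsto_natCast_atTop_atTop

theorem tFIN (hU : T_UPP) (hL : T_LOW) : T_FIN := by
  intro ε p h1 h2 h3 h4
  have hΛ : 0 < Real.log (1 / p) := Real.log_pos (by rw [lt_div_iff₀ h3]; linarith)
  set L : ℝ := (Real.log (1 / p) / ε) ^ (1 / 3 : ℝ) with hLd
  have hL0 : 0 < L := Real.rpow_pos_of_pos (div_pos hΛ h1) _
  have hL3 : L ^ 3 = Real.log (1 / p) / ε := by
    rw [hLd, ← Real.rpow_natCast, ← Real.rpow_mul (div_pos hΛ h1).le]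
    norm_num
  -- the set of good sample sizes
  have key1 : ∀ c : ℝ, L < c → ∀ᶠ n : ℕ in atTop,
      (∃ s : ℕ, (s : ℝ) ≤ c * (n : ℝ) ^ (2 / 3 : ℝ) + 1 ∧
        ∀ S : Finset (ℝ × ℝ), S.card = n → GenPos S → Far ε S → accept S s ≤ p) := by
    intro c hc
    have hc0 : 0 < c := hL0.trans hc
    have h := hU ε p c h1 h2 h3 h4 (by rw [← hL3]; exact pow_lt_pow_left₀ hc hL0.le (by norm_num)) hc0
    have h5 : ∀ᶠ n : ℕ in atTop, c * (n : ℝ) ^ (2 / 3 : ℝ) + 1 ≤ n := by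
      have t1 : Tendsto (fun n : ℕ => (n : ℝ) ^ (1 / 3 : ℝ)) atTop atTop :=
        (tendsto_rpow_atTop (by norm_num)).comp tendsto_natCast_atTop_atTop
      filter_upwards [t1.eventually_ge_atTop (c + 1), eventually_ge_atTop 1] with n hn hn1
      have hn1' : (1 : ℝ) ≤ n := by exact_mod_cast hn1
      have h6 : (n : ℝ) = (n : ℝ) ^ (2 / 3 : ℝ) * (n : ℝ) ^ (1 / 3 : ℝ) := by
        rw [← Real.rpow_add (by linarith)]
        norm_num
      have h7 : (1 : ℝ) ≤ (n : ℝ) ^ (2 / 3 : ℝ) := Real.one_le_rpow hn1' (by norm_num)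
      have h8 : (n : ℝ) ^ (2 / 3 : ℝ) * (c + 1) ≤ (n : ℝ) ^ (2 / 3 : ℝ) * (n : ℝ) ^ (1 / 3 : ℝ) :=
        mul_le_mul_of_nonneg_left hn (by linarith)
      rw [← h6] at h8
      linarith
    filter_upwards [h, h5] with n hn hn5
    have h6 : (0 : ℝ) ≤ c * (n : ℝ) ^ (2 / 3 : ℝ) := by positivity
    have h7 := Nat.ceil_lt_add_one h6
    refine ⟨⌈c * (n : ℝ) ^ (2 / 3 : ℝ)⌉₊, h7.le, hn _ (Nat.le_ceil _) ?_⟩
    have : (⌈c * (n : ℝ) ^ (2 / 3 : ℝ)⌉₊ : ℝ) ≤ n := h7.le.trans hn5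
    exact_mod_cast this
  rw [Metric.tendsto_atTop']
  intro η hη
  have e1 := key1 (L + η / 2) (by linarith)
  have e2 : ∀ᶠ n : ℕ in atTop, (L - η / 2) * (n : ℝ) ^ (2 / 3 : ℝ) ≤ sampleSize ε p n := by
    rcases le_or_gt (L - η / 2) 0 with h | h
    · refine Eventually.of_forall fun n => ?_
      exact (mul_nonpos_of_nonpos_of_nonneg h (by positivity)).trans (Nat.cast_nonneg _)
    · have := hL ε p (L - η / 2) h1 h2 h3 h4
        (by rw [← hL3]; exact pow_lt_pow_left₀ (by linarith) h.le (by norm_num)) h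
      filter_upwards [this, key1 (L + 1) (by linarith)] with n hn hn'
      obtain ⟨S, s1, s2, s3, s4⟩ := hn
      obtain ⟨s, -, hs⟩ := hn'
      have hne : {s : ℕ | ∀ S : Finset (ℝ × ℝ), S.card = n → GenPos S → Far ε S →
          accept S s ≤ p}.Nonempty := ⟨s, hs⟩
      have hmem := Nat.sInf_mem hne
      by_contra hcon
      have := s4 (sampleSize ε p n) (not_le.1 hcon).le
      exact absurd (hmem S s1 s2 s3) (not_le.2 this)
  have e3 : ∀ᶠ n : ℕ in atTop, 1 < η / 2 * (n : ℝ) ^ (2 / 3 : ℝ) :=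
    (tendsto_pow23.const_mul_atTop (by linarith : 0 < η / 2)).eventually_gt_atTop 1
  obtain ⟨N, hN⟩ := eventually_atTop.1 (e1.and (e2.and (e3.and (eventually_gt_atTop 0))))
  refine ⟨N, fun n hn => ?_⟩
  obtain ⟨⟨s, g1, g2⟩, g3, g4, g5⟩ := hN n hn.le
  have hpos : 0 < (n : ℝ) ^ (2 / 3 : ℝ) := Real.rpow_pos_of_pos (by exact_mod_cast g5) _
  have g6 : (sampleSize ε p n : ℝ) ≤ s := by
    have : sampleSize ε p n ≤ s := Nat.sInf_le g2
    exact_mod_cast this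
  rw [Real.dist_eq, abs_lt]
  constructor
  · have : L - η / 2 ≤ (sampleSize ε p n : ℝ) / (n : ℝ) ^ (2 / 3 : ℝ) := (le_div_iff₀ hpos).2 g3
    linarith
  · have : (sampleSize ε p n : ℝ) / (n : ℝ) ^ (2 / 3 : ℝ) < L + η := by
      rw [div_lt_iff₀ hpos]
      linarith
    linarith

end Pool.Agent.SBC
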