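import Pool.Agent.SBC.Defs

set_option autoImplicit false

/-!
# Sample-based testing of planar convexity: targets
-/

namespace Pool.Agent.SBC

open Filter Topology

open scoped Classical in
/-- The probability that a random subset of `S`, each point being taken independently with
probability `q`, has the property `F`. -/
noncomputable def pr {α : Type} (q : ℝ) (S : Finset α) (F : Finset α → Prop) : ℝ :=
  ∑ T ∈ S.powerset.filter F, q ^ T.card * (1 - q) ^ (S.card - T.card)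

/-- JAN: Janson's inequality for a 3-uniform hypergraph of maximal degree `≤ D`. -/
def T_JAN : Prop := ∀ (S : Finset (ℝ × ℝ)) (W : Finset (Finset (ℝ × ℝ))) (D : ℕ) (q : ℝ),
  0 ≤ q → q ≤ 1 → (∀ e ∈ W, e ⊆ S ∧ e.card = 3) → (∀ v, (W.filter fun e => v ∈ e).card ≤ D) →
  pr q S (fun T => ∀ e ∈ W, ¬ e ⊆ T) ≤ Real.exp (-(W.card * q ^ 3 * (1 - 3 * D * q)))

/-- PRB: basic facts: monotone, union bound, missing a set, avoiding disjoint triples. -/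
def T_PRB : Prop := ∀ (S : Finset (ℝ × ℝ)) (q : ℝ), 0 ≤ q → q ≤ 1 →
  (∀ F : Finset (ℝ × ℝ) → Prop, 0 ≤ pr q S F ∧ pr q S F ≤ 1) ∧
  (∀ F G : Finset (ℝ × ℝ) → Prop, (∀ T ⊆ S, F T → G T) → pr q S F ≤ pr q S G) ∧
  (∀ F G : Finset (ℝ × ℝ) → Prop, pr q S (fun T => F T ∨ G T) ≤ pr q S F + pr q S G) ∧
  (∀ (W : Finset (Finset (ℝ × ℝ))) (F : Finset (ℝ × ℝ) → Finset (ℝ × ℝ) → Prop),
    pr q S (fun T => ∃ e ∈ W, F e T) ≤ ∑ e ∈ W, pr q S (F e)) ∧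
  (∀ Q ⊆ S, pr q S (fun T => Disjoint T Q) = (1 - q) ^ Q.card) ∧
  (∀ W : Finset (Finset (ℝ × ℝ)), (∀ e ∈ W, e ⊆ S ∧ e.card = 3) →
    (∀ e ∈ W, ∀ e' ∈ W, e ≠ e' → Disjoint e e') →
    pr q S (fun T => ∀ e ∈ W, ¬ e ⊆ T) = (1 - q ^ 3) ^ W.card)

/-- TRA: from independent sampling to `s`-subsets, for decreasing properties. -/
def T_TRA : Prop := ∀ (S : Finset (ℝ × ℝ)) (F : Finset (ℝ × ℝ) → Prop),
  (∀ T T' : Finset (ℝ × ℝ), T' ⊆ T → F T → F T') → ∀ (s : ℕ) (q : ℝ), s ≤ S.card → 0 ≤ q → q ≤ 1 →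
  (∀ s' ≤ s, prob S s F ≤ prob S s' F) ∧
  (S.card * q < s →
    prob S s F * (1 - S.card * q * (1 - q) / (s - S.card * q) ^ 2) ≤ pr q S F) ∧
  (s < S.card * q → pr q S F ≤ prob S s F + S.card * q * (1 - q) / (S.card * q - s) ^ 2)

/-- GEO: many triples, of bounded degree, that together with almost any further point are not in
convex position. -/
def T_GEO : Prop := ∀ (S : Finset (ℝ × ℝ)) (ε : ℝ) (D : ℕ), GenPos S → Far ε S → 16 ≤ S.card →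
  1 ≤ D → ∃ W : Finset (Finset (ℝ × ℝ)), (∀ e ∈ W, e ⊆ S ∧ e.card = 3) ∧
    (∀ v, (W.filter fun e => v ∈ e).card ≤ D) ∧ ε * S.card ≤ W.card * (1 + 3 / D) ∧
    ∀ e ∈ W, ∃ Q ⊆ S, S.card ≤ 4 * Q.card ∧ ∀ T ⊆ S, ConvexPos T → e ⊆ T → Disjoint T Q

/-- SUB: subsets of convex configurations are convex. -/
def T_SUB : Prop := ∀ T T' : Finset (ℝ × ℝ), T' ⊆ T → ConvexPos T → ConvexPos T'

/-- TEE: configurations with `t` disjoint teeth. -/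
def T_TEE : Prop := ∀ n t : ℕ, 3 * t ≤ n → ∃ S : Finset (ℝ × ℝ), S.card = n ∧ GenPos S ∧
  (∀ C ⊆ S, ConvexPos C → 4 ≤ C.card → C.card + t ≤ n) ∧
  ∃ W : Finset (Finset (ℝ × ℝ)), W.card = t ∧ (∀ e ∈ W, e ⊆ S ∧ e.card = 3) ∧
    (∀ e ∈ W, ∀ e' ∈ W, e ≠ e' → Disjoint e e') ∧
    ∀ T ⊆ S, (∀ e ∈ W, ¬ e ⊆ T) → ConvexPos T

/-- UPP: the upper bound. -/
def T_UPP : Prop := ∀ ε p c : ℝ, 0 < ε → ε < 1 / 3 → 0 < p → p < 1 → Real.log (1 / p) / ε < c ^ 3 →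
  0 < c → ∀ᶠ n : ℕ in atTop, ∀ s : ℕ, c * (n : ℝ) ^ (2 / 3 : ℝ) ≤ s → s ≤ n →
    ∀ S : Finset (ℝ × ℝ), S.card = n → GenPos S → Far ε S → accept S s ≤ p

/-- LOW: the lower bound. -/
def T_LOW : Prop := ∀ ε p c : ℝ, 0 < ε → ε < 1 / 3 → 0 < p → p < 1 → c ^ 3 < Real.log (1 / p) / ε →
  0 < c → ∀ᶠ n : ℕ in atTop, ∃ S : Finset (ℝ × ℝ), S.card = n ∧ GenPos S ∧ Far ε S ∧
    ∀ s : ℕ, (s : ℝ) ≤ c * (n : ℝ) ^ (2 / 3 : ℝ) → p < accept S s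

/-- FIN: the limit. -/
def T_FIN : Prop := ∀ ε p : ℝ, 0 < ε → ε < 1 / 3 → 0 < p → p < 1 →
  Tendsto (fun n : ℕ => (sampleSize ε p n : ℝ) / (n : ℝ) ^ (2 / 3 : ℝ)) atTop
    (𝓝 ((Real.log (1 / p) / ε) ^ (1 / 3 : ℝ)))

end Pool.Agent.SBC
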